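import Pool.Agent.Helper92.TG.SLD2

/-!
# The integral of a twist region, any number of children
-/

namespace Pool.Agent.Helper9.TG

open Complex Finset MeasureTheory
open Pool.Agent.Helper9.TB Pool.Agent.Helper9.TF

variable {ρ d : ℝ} {a : ℕ} {X : ℂ → ℂ} {y : ℂ}

/-- comparison with the main part -/
lemma SCtxD.IL_main (h : SCtxD ρ d a X y) {N : ℕ} (hN : 1 ≤ N)
    (hu : Real.exp (-(2 * Real.pi * N * (d / a ^ 2))) ≤ 1 / 2) {B : ℂ → ℂ}
    (hB : DifferentiableOn ℂ B (Metric.ball 0 ρ))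
    (hB1 : ∀ z ∈ Metric.ball (0 : ℂ) ρ, ‖B z‖ ≤ 1) :
    ‖IL N a (d / a ^ 2) ρ X B - (-1) ^ N *
      ∫ ξ in (-(ρ / 2))..(ρ / 2), mainf N a X B (pt ξ (d / a ^ 2))‖ ≤
      10 * K0 * Real.exp (-(5 * (1 / (a : ℝ)) ^ 2 * N)) * Real.exp (N * (Psi a X y).re) := by
  have hρ := h.hρ
  have hρ1 := h.hρ1
  have ha := h.a_pos
  have hK0 := K0_pos
  have hle : -(ρ / 2) ≤ ρ / 2 := by linarith
  have hNR : (1 : ℝ) ≤ N := by exact_mod_cast hN
  have hmem : ∀ ξ ∈ Set.uIcc (-(ρ / 2)) (ρ / 2), pt ξ (d / a ^ 2) ∈ Metric.ball (0 : ℂ) ρ := by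
    intro ξ hξ
    rw [Set.uIcc_of_le hle] at hξ
    exact h.flat_mem (abs_le.mpr hξ)
  have hf := h.main_diff N hB
  have i1 : IntervalIntegrable (fun ξ => mainf N a X B (pt ξ (d / a ^ 2))) volume
      (-(ρ / 2)) (ρ / 2) := by
    apply ContinuousOn.intervalIntegrable
    exact hf.continuousOn.comp (pt_cont _).continuousOn hmem
  have i2 : IntervalIntegrable (fun ξ => om N a (pt ξ (d / a ^ 2)) *
      Complex.exp (N * X (pt ξ (d / a ^ 2))) * B (pt ξ (d / a ^ 2))) volume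
      (-(ρ / 2)) (ρ / 2) := by
    apply ContinuousOn.intervalIntegrable
    apply ContinuousOn.mul
    · apply ContinuousOn.mul (om_cont_SL hN hu).continuousOn
      exact ((h.hX.const_mul (N : ℂ)).cexp).continuousOn.comp (pt_cont _).continuousOn hmem
    · exact hB.continuousOn.comp (pt_cont _).continuousOn hmem
  unfold IL
  rw [← intervalIntegral.integral_const_mul, ← intervalIntegral.integral_sub i2 (i1.const_mul _)]
  have hbound : ∀ ξ ∈ Set.uIoc (-(ρ / 2)) (ρ / 2), ‖om N a (pt ξ (d / a ^ 2)) *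
      Complex.exp (N * X (pt ξ (d / a ^ 2))) * B (pt ξ (d / a ^ 2)) -
      (-1) ^ N * mainf N a X B (pt ξ (d / a ^ 2))‖ ≤
      10 * K0 * Real.exp (-(5 * (1 / (a : ℝ)) ^ 2 * N)) * Real.exp (N * (Psi a X y).re) := by
    intro ξ hξ
    rw [Set.uIoc_of_le hle] at hξ
    have hξ' : |ξ| ≤ ρ / 2 := abs_le.mpr ⟨hξ.1.le, hξ.2⟩
    have h1 := om_main (a := a) (X := X) (B := B) (DN_eq hN (pt ξ (d / a ^ 2)))
      (by rw [norm_exp_pt]; exact hu)
    have h2 := h.main_le N hB1 (h.flat_mem hξ') (h.flat_re hξ')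
    rw [norm_exp_pt] at h1
    refine h1.trans ?_
    calc 10 * Real.exp (-(2 * Real.pi * N * (d / a ^ 2))) * ‖mainf N a X B (pt ξ (d / a ^ 2))‖
        ≤ 10 * Real.exp (-(2 * Real.pi * N * (d / a ^ 2))) *
          (K0 * Real.exp (N * (1 / 10 * (d * (1 / (a : ℝ)) ^ 2))) * Real.exp (N * (Psi a X y).re)) := by
          gcongr
      _ = 10 * K0 * Real.exp (-(2 * Real.pi * N * (d / a ^ 2)) +
          N * (1 / 10 * (d * (1 / (a : ℝ)) ^ 2))) * Real.exp (N * (Psi a X y).re) := by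
          rw [Real.exp_add]; ring
      _ ≤ _ := by
          gcongr
          have hpi := Real.pi_gt_three
          have hd1 := h.hd1
          have e : d / (a : ℝ) ^ 2 = d * (1 / a) ^ 2 := by ring
          rw [e]
          have h3 : 0 < (1 / (a : ℝ)) ^ 2 := by positivity
          have h4 : 5 + 1 / 10 * d ≤ 2 * Real.pi * d := by nlinarith
          have h5 : (5 + 1 / 10 * d) * (N * (1 / (a : ℝ)) ^ 2) ≤
              2 * Real.pi * d * (N * (1 / (a : ℝ)) ^ 2) := by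
            gcongr
          have h6 : 0 < N * (1 / (a : ℝ)) ^ 2 := by positivity
          nlinarith
  have h3 := intervalIntegral.norm_integral_le_of_norm_le_const hbound
  refine h3.trans ?_
  rw [show ρ / 2 - -(ρ / 2) = ρ by ring, abs_of_pos hρ]
  have : 0 ≤ 10 * K0 * Real.exp (-(5 * (1 / (a : ℝ)) ^ 2 * N)) *
    Real.exp (N * (Psi a X y).re) := by positivity
  nlinarith

lemma SCtxD.IL_asym (h : SCtxD ρ d a X y) {N : ℕ} (hN : 1 ≤ N)
    (hu : Real.exp (-(2 * Real.pi * N * (d / a ^ 2))) ≤ 1 / 2) {B : ℂ → ℂ}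
    (hB : DifferentiableOn ℂ B (Metric.ball 0 ρ))
    (hB1 : ∀ z ∈ Metric.ball (0 : ℂ) ρ, ‖B z‖ ≤ 1) :
    ‖IL N a (d / a ^ 2) ρ X B - B y * ((-1) ^ N * ((1 + I) * Complex.exp (N * Psi a X y) *
      dLy y * JT N a ρ X y))‖ ≤ C1 ρ a / N * Real.exp (N * (Psi a X y).re) := by
  have hρ := h.hρ
  have ha := h.a_pos
  have hK0 := K0_pos
  have hKA := KA_pos hρ
  have hpi := Real.pi_pos
  have hNR : (0 : ℝ) < N := by exact_mod_cast (by omega : 0 < N)
  have h1 := h.IL_main hN hu hB hB1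
  have h2 := h.main_int hN hB hB1
  set M := ∫ ξ in (-(ρ / 2))..(ρ / 2), mainf N a X B (pt ξ (d / a ^ 2)) with hM
  have e : IL N a (d / a ^ 2) ρ X B - B y * ((-1) ^ N * ((1 + I) * Complex.exp (N * Psi a X y) *
      dLy y * JT N a ρ X y)) = (IL N a (d / a ^ 2) ρ X B - (-1) ^ N * M) +
      (-1) ^ N * (M - (1 + I) * Complex.exp (N * Psi a X y) * (dLy y * B y) * JT N a ρ X y) := by
    ring
  rw [e]
  have n1 : ‖((-1 : ℂ)) ^ N‖ = 1 := by rw [norm_pow, norm_neg, norm_one, one_pow]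
  refine (norm_add_le _ _).trans ?_
  rw [norm_mul, n1, one_mul]
  refine (add_le_add h1 h2).trans ?_
  have hE := Real.exp_pos (N * (Psi a X y).re)
  rw [← add_mul]
  apply mul_le_mul_of_nonneg_right _ hE.le
  have a1 := exp_neg_le_inv (c := 5 * (1 / (a : ℝ)) ^ 2) (x := N) (by positivity) hNR
  have a2 := exp_neg_le_inv (c := ρ ^ 2 / 4) (x := N) (by positivity) hNR
  have e2 : (N : ℝ) * -(ρ ^ 2 / 4) = -(ρ ^ 2 / 4 * N) := by ring
  rw [e2]
  calc 10 * K0 * Real.exp (-(5 * (1 / (a : ℝ)) ^ 2 * N)) + (2 * K0 * Real.exp (-(ρ ^ 2 / 4 * N)) +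
        16 * KA ρ / (2 * Real.pi * a * N))
      ≤ 10 * K0 * (1 / (5 * (1 / (a : ℝ)) ^ 2) * (1 / N)) + (2 * K0 * (1 / (ρ ^ 2 / 4) * (1 / N)) +
        16 * KA ρ / (2 * Real.pi * a * N)) := by gcongr
    _ = _ := by
        unfold C1
        field_simp
        ring

lemma SCtxD.dLy_ge (h : SCtxD ρ d a X y) : c1 a ≤ ‖dLy y‖ := by
  rw [eq_pt y]
  refine le_trans ?_ (norm_dLy_ge _ _)
  unfold c1
  have hpi := Real.pi_pos
  have h1 := (abs_le.mp h.im_loc).2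
  have hd1 := h.hd1
  have hk : 0 < (1 / (a : ℝ)) ^ 2 := by
    have := h.a_pos
    positivity
  have : Real.sinh (2 * Real.pi * ((1 / (a : ℝ)) ^ 2 / 2)) ≤
      Real.sinh (2 * Real.pi * (-y.im)) := by
    apply Real.sinh_le_sinh.mpr
    have : (1 / (a : ℝ)) ^ 2 / 2 ≤ -y.im := by nlinarith
    gcongr
  gcongr

lemma SCtxD.JT_ge (h : SCtxD ρ d a X y) {N : ℕ} (hN : 1 ≤ N) :
    4 / 5 / √(2 * a) * (1 / √N) - 16 / (2 * Real.pi * a * ρ) * (1 / N) ≤ ‖JT N a ρ X y‖ := by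
  obtain ⟨r1, r2, r3⟩ := h.re_bounds
  have hk := h.inv_a
  have hρ := h.hρ
  have ha := h.a_pos
  have hpi := Real.pi_pos
  have hNR : (0 : ℝ) < N := by exact_mod_cast (by omega : 0 < N)
  have h1 := (h.tl hN).lower (σ := ρ / 4) (by positivity) (by linarith) (by linarith)
  refine le_trans (le_of_eq ?_) h1
  have e1 : √(Real.pi / (2 * Real.pi * a * N)) = 1 / √(2 * a) * (1 / √N) := by
    rw [show Real.pi / (2 * Real.pi * a * N) = 1 / ((2 * a) * N) by field_simp,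
      Real.sqrt_div' _ (by positivity), Real.sqrt_one, Real.sqrt_mul (by positivity)]
    field_simp
  rw [e1]
  field_simp
  ring

lemma SCtxD.JT_le (h : SCtxD ρ d a X y) {N : ℕ} (hN : 1 ≤ N) : ‖JT N a ρ X y‖ ≤ 3 := by
  have h1 := (h.tl hN).const (g := fun _ => 1) (K := 1) (fun _ _ => by simp)
  simp only [mul_one] at h1
  have ha := h.ha
  have hpi := Real.pi_gt_three
  have hNR : (1 : ℝ) ≤ N := by exact_mod_cast hN
  refine h1.trans ?_
  have h2 : 1 ≤ √(2 * Real.pi * a * N) := by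
    rw [Real.one_le_sqrt]
    have : 1 ≤ 2 * Real.pi * a := by nlinarith
    nlinarith
  rw [div_le_iff₀ (by linarith)]
  linarith

theorem SLD {ρ : ℝ} (hρ : 0 < ρ) (hρ1 : ρ ≤ 1 / 10) (D : ℕ) : ∃ R : ℕ, ∀ a : ℕ, R ≤ a → ∀ d : ℕ,
    1 ≤ d → d ≤ D → ∃ C : ℝ, 0 < C ∧ ∃ N0 : ℕ, ∀ N : ℕ, N0 ≤ N → ∀ X : ℂ → ℂ,
      DifferentiableOn ℂ X (Metric.ball 0 ρ) → deriv X 0 = 0 → LipS 0 ρ d (d / 2) (deriv X) →
      ∃ y : ℂ, ‖y - 1 / a‖ ≤ 2 * d / a ^ 2 ∧ 2 * Real.pi * I * a * y - 2 * Real.pi * I + deriv X y = 0 ∧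
        1 / (C * N) * Real.exp (N * (Psi a X y).re) ≤ ‖IL N a (d / a ^ 2) ρ X (fun _ => 1)‖ ∧
        ‖IL N a (d / a ^ 2) ρ X (fun _ => 1)‖ ≤ C * Real.exp (N * (Psi a X y).re) ∧
        ∀ B : ℂ → ℂ, DifferentiableOn ℂ B (Metric.ball 0 ρ) → (∀ z ∈ Metric.ball (0 : ℂ) ρ, ‖B z‖ ≤ 1) →
          ‖IL N a (d / a ^ 2) ρ X B - B y * IL N a (d / a ^ 2) ρ X (fun _ => 1)‖ ≤
            C / Real.sqrt N * ‖IL N a (d / a ^ 2) ρ X (fun _ => 1)‖ := by
  obtain ⟨R, hR⟩ := exists_nat_gt (1000 * (D : ℝ) / ρ)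
  refine ⟨R, ?_⟩
  intro a haR0 d0 hd1n hdDn
  obtain ⟨d, hdd⟩ : ∃ d : ℝ, d = d0 := ⟨_, rfl⟩
  rw [← hdd]
  have hd1 : 1 ≤ d := by rw [hdd]; exact_mod_cast hd1n
  have hdD : d ≤ D := by rw [hdd]; exact_mod_cast hdDn
  have had : 1000 * d ≤ ρ * a := by
    have h1 : (R : ℝ) ≤ a := by exact_mod_cast haR0
    have h2 : 1000 * (D : ℝ) / ρ < a := lt_of_lt_of_le hR h1
    rw [div_lt_iff₀ hρ] at h2
    nlinarith
  have haR : (200 : ℝ) ≤ a := by
    have h4 : (0 : ℝ) ≤ a := Nat.cast_nonneg a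
    nlinarith
  have ha0 : (0 : ℝ) < a := by linarith
  clear hdd
  have hC1 := C1_pos hρ ha0
  have hc1 := c1_pos ha0
  have hK0 := K0_pos
  have hpi := Real.pi_pos
  have hpi3 := Real.pi_gt_three
  set α : ℝ := 4 / 5 / √(2 * a) with hα
  set β : ℝ := 16 / (2 * Real.pi * a * ρ) with hβ
  have hα0 : 0 < α := by positivity
  have hβ0 : 0 < β := by positivity
  set c2 : ℝ := c1 a * α / 2 with hc2
  have hc20 : 0 < c2 := by positivity
  set C : ℝ := 1 / c2 + 2 * C1 ρ a / c2 + (6 * K0 + C1 ρ a) with hC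
  have hC0 : 0 < C := by positivity
  obtain ⟨N1, hN1⟩ := exists_nat_gt (((c1 a * β + C1 ρ a) / c2) ^ 2)
  refine ⟨C, hC0, max N1 (a ^ 2), ?_⟩
  intro N hN X hX hX0 hL
  have hN1' : N1 ≤ N := (le_max_left _ _).trans hN
  have hN2 : a ^ 2 ≤ N := (le_max_right _ _).trans hN
  have hNa : (a : ℝ) ^ 2 ≤ N := by exact_mod_cast hN2
  have hNR : (1 : ℝ) ≤ N := by nlinarith
  have hN' : 1 ≤ N := by exact_mod_cast hNR
  have hsN : (c1 a * β + C1 ρ a) / c2 ≤ √N := by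
    apply Real.le_sqrt_of_sq_le
    exact hN1.le.trans (by exact_mod_cast hN1')
  have hs0 : 0 < √(N : ℝ) := Real.sqrt_pos.mpr (by linarith)
  have hss : √(N : ℝ) * √N = N := Real.mul_self_sqrt (by linarith)
  obtain ⟨y, hy, hcrit⟩ := crit_existsD hρ hρ1 hd1 had hX0 hL
  have h : SCtxD ρ d a X y := ⟨hρ, hρ1, had, hd1, hX, hL, hX0, hy, hcrit⟩
  have hu : Real.exp (-(2 * Real.pi * N * (d / a ^ 2))) ≤ 1 / 2 := by
    have e : 2 * Real.pi * N * (d / (a : ℝ) ^ 2) = (2 * Real.pi * d / a ^ 2) * N := by ring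
    rw [e]
    refine (exp_neg_le_inv (by positivity) (by linarith)).trans ?_
    have e2 : 1 / (2 * Real.pi * d / (a : ℝ) ^ 2) * (1 / N) =
        ((a : ℝ) ^ 2 / N) * (1 / (2 * Real.pi * d)) := by field_simp
    rw [e2]
    have a1 : (a : ℝ) ^ 2 / N ≤ 1 := by
      rw [div_le_one (by linarith)]; exact hNa
    have a2 : 1 / (2 * Real.pi * d) ≤ 1 / 2 := by
      apply one_div_le_one_div_of_le (by norm_num)
      nlinarith
    calc (a : ℝ) ^ 2 / N * (1 / (2 * Real.pi * d)) ≤ 1 * (1 / 2) := by gcongr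
      _ = 1 / 2 := by norm_num
  set E := Real.exp (N * (Psi a X y).re) with hE
  have hE0 : 0 < E := Real.exp_pos _
  set Z : ℂ := (-1) ^ N * ((1 + I) * Complex.exp (N * Psi a X y) * dLy y * JT N a ρ X y) with hZ
  have hone : ∀ z ∈ Metric.ball (0 : ℂ) ρ, ‖(fun _ : ℂ => (1 : ℂ)) z‖ ≤ 1 := by
    intro z _; simp
  have b1 := h.IL_asym hN' hu (B := fun _ => 1) (differentiableOn_const _) hone
  simp only [one_mul] at b1
  rw [← hZ, ← hE] at b1
  have hZn : ‖Z‖ = ‖(1 : ℂ) + I‖ * E * ‖dLy y‖ * ‖JT N a ρ X y‖ := by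
    rw [hZ, norm_mul, norm_pow, norm_neg, norm_one, one_pow, one_mul, norm_mul, norm_mul,
      norm_mul, Complex.norm_exp]
    have h3 : ((N : ℂ) * Psi a X y).re = N * (Psi a X y).re := by
      rw [← Complex.ofReal_natCast, Complex.re_ofReal_mul]
    rw [h3]
  have hJ1 := h.JT_ge hN'
  have hJ2 := h.JT_le hN'
  have hd' := h.dLy_ge
  have hd'' := dLy_le (im_le_of_ball hρ1 h.y_mem)
  obtain ⟨i1, i2⟩ := norm_one_add_I
  rw [← hα, ← hβ] at hJ1
  -- lower bound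
  have key : (c1 a * β + C1 ρ a) * (1 / (N : ℝ)) ≤ c2 * (1 / √N) := by
    rw [div_le_iff₀ hc20] at hsN
    rw [mul_one_div, mul_one_div, div_le_div_iff₀ (by linarith) hs0]
    calc (c1 a * β + C1 ρ a) * √N ≤ (√N * c2) * √N := by gcongr
      _ = c2 * (√(N : ℝ) * √N) := by ring
      _ = c2 * N := by rw [hss]
  have hZlow : E * (c1 a * (α * (1 / √N) - β * (1 / N))) ≤ ‖Z‖ := by
    rw [hZn]
    by_cases hneg : α * (1 / √N) - β * (1 / (N : ℝ)) ≤ 0
    · have : E * (c1 a * (α * (1 / √N) - β * (1 / N))) ≤ 0 := by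
        apply mul_nonpos_of_nonneg_of_nonpos hE0.le
        exact mul_nonpos_of_nonneg_of_nonpos hc1.le hneg
      refine this.trans (by positivity)
    · push Not at hneg
      calc E * (c1 a * (α * (1 / √N) - β * (1 / N)))
          = 1 * E * c1 a * (α * (1 / √N) - β * (1 / N)) := by ring
        _ ≤ ‖(1 : ℂ) + I‖ * E * ‖dLy y‖ * ‖JT N a ρ X y‖ := by gcongr
  have hlow : c2 * (1 / √N) * E ≤ ‖IL N a (d / a ^ 2) ρ X (fun _ => 1)‖ := by
    have b2 : ‖Z‖ - C1 ρ a / N * E ≤ ‖IL N a (d / a ^ 2) ρ X (fun _ => 1)‖ := by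
      have := norm_sub_norm_le Z (Z - IL N a (d / a ^ 2) ρ X (fun _ => 1))
      rw [sub_sub_cancel, norm_sub_rev Z] at this
      linarith
    refine le_trans ?_ b2
    have e3 : c1 a * (α * (1 / √N)) = 2 * (c2 * (1 / √N)) := by rw [hc2]; ring
    have e4 : E * (c1 a * (α * (1 / √N) - β * (1 / N))) - C1 ρ a / N * E =
        E * (c1 a * (α * (1 / √N)) - (c1 a * β + C1 ρ a) * (1 / N)) := by ring
    have e5 : E * (c2 * (1 / √N)) ≤ E * (c1 a * (α * (1 / √N)) -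
        (c1 a * β + C1 ρ a) * (1 / N)) := by
      apply mul_le_mul_of_nonneg_left _ hE0.le
      rw [e3]
      linarith
    linarith
  refine ⟨y, hy, hcrit, ?_, ?_, ?_⟩
  · refine le_trans ?_ hlow
    apply mul_le_mul_of_nonneg_right _ hE0.le
    rw [← one_div_mul_one_div]
    have hsle : √(N : ℝ) ≤ N := by
      rw [Real.sqrt_le_left (by linarith)]
      nlinarith
    have : 1 / C ≤ c2 := by
      rw [div_le_iff₀ hC0, hC]
      have e6 : c2 * (1 / c2 + 2 * C1 ρ a / c2 + (6 * K0 + C1 ρ a)) =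
          1 + 2 * C1 ρ a + c2 * (6 * K0 + C1 ρ a) := by field_simp
      rw [e6]
      have : 0 < c2 * (6 * K0 + C1 ρ a) := by positivity
      linarith
    have h1N : 1 / (N : ℝ) ≤ 1 / √N := one_div_le_one_div_of_le hs0 hsle
    gcongr
  · have b3 : ‖IL N a (d / a ^ 2) ρ X (fun _ => 1)‖ ≤ C1 ρ a / N * E + ‖Z‖ := by
      have := norm_add_le (IL N a (d / a ^ 2) ρ X (fun _ => 1) - Z) Z
      rw [sub_add_cancel] at this
      linarith
    refine b3.trans ?_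
    rw [hZn]
    have b4 : ‖(1 : ℂ) + I‖ * E * ‖dLy y‖ * ‖JT N a ρ X y‖ ≤ 2 * E * K0 * 3 := by gcongr
    have b5 : C1 ρ a / N * E ≤ C1 ρ a * E := by
      apply mul_le_mul_of_nonneg_right _ hE0.le
      exact div_le_self hC1.le hNR
    have b6 : (6 * K0 + C1 ρ a) * E ≤ C * E := by
      apply mul_le_mul_of_nonneg_right _ hE0.le
      rw [hC]
      have : 0 < 1 / c2 + 2 * C1 ρ a / c2 := by positivity
      linarith
    linarith
  · intro B hB hB1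
    have b7 := h.IL_asym hN' hu hB hB1
    rw [← hZ, ← hE] at b7
    have e7 : IL N a (d / a ^ 2) ρ X B - B y * IL N a (d / a ^ 2) ρ X (fun _ => 1) =
        (IL N a (d / a ^ 2) ρ X B - B y * Z) -
          B y * (IL N a (d / a ^ 2) ρ X (fun _ => 1) - Z) := by ring
    rw [e7]
    refine (norm_sub_le _ _).trans ?_
    rw [norm_mul]
    have b8 : ‖B y‖ * ‖IL N a (d / a ^ 2) ρ X (fun _ => 1) - Z‖ ≤ 1 * (C1 ρ a / N * E) := by
      gcongr
      exact hB1 y h.y_mem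
    have b9 : 2 * C1 ρ a / N * E ≤ C / √N * (c2 * (1 / √N) * E) := by
      have e8 : C / √N * (c2 * (1 / √N) * E) = C * c2 / (√(N : ℝ) * √N) * E := by
        field_simp
      rw [e8, hss]
      apply mul_le_mul_of_nonneg_right _ hE0.le
      apply div_le_div_of_nonneg_right _ (by linarith)
      have e6 : C * c2 = 1 + 2 * C1 ρ a + c2 * (6 * K0 + C1 ρ a) := by rw [hC]; field_simp
      rw [e6]
      have : 0 < c2 * (6 * K0 + C1 ρ a) := by positivity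
      linarith
    have b10 : C / √N * (c2 * (1 / √N) * E) ≤
        C / √N * ‖IL N a (d / a ^ 2) ρ X (fun _ => 1)‖ := by gcongr
    have e9 : 2 * C1 ρ a / N * E = C1 ρ a / N * E + C1 ρ a / N * E := by ring
    linarith



theorem J_familyD {ρ : ℝ} (hρ : 0 < ρ) (hρ1 : ρ ≤ 1 / 1000) (D : ℕ) : ∃ R : ℕ, ∀ a : ℕ, R ≤ a →
    ∀ θ : ℕ, θ ≤ D → ∃ C : ℝ, 0 < C ∧ ∃ N0 : ℕ, ∀ N : ℕ, N0 ≤ N → ∀ P : ℂ → ℂ,
      DifferentiableOn ℂ P (Metric.ball 0 ρ) → P 0 = 0 → deriv P 0 = 0 →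
      LipS 0 ρ θ (θ / 2) (deriv P) →
      ∃ v w : ℂ → ℂ, v (1 / 4) = 0 ∧
        IL N a ((1 + θ) / a ^ 2) ρ (fun y => GA N y (1 / 4) + P y) (fun _ => 1) ≠ 0 ∧
        ∀ t ∈ Metric.ball (1 / 4 : ℂ) (1 / 200), HasDerivAt v (w t) t ∧
          IL N a ((1 + θ) / a ^ 2) ρ (fun y => GA N y t + P y) (fun _ => 1) =
            IL N a ((1 + θ) / a ^ 2) ρ (fun y => GA N y (1 / 4) + P y) (fun _ => 1) *
              Complex.exp (N * v t) ∧
          ∃ z : ℂ, ‖z - 1 / a‖ ≤ 2 * (1 + θ) / a ^ 2 ∧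
            2 * Real.pi * I * a * z - 2 * Real.pi * I + GAy N z t + deriv P z = 0 ∧
            ‖w t - GAt N z t‖ ≤ C / Real.sqrt N ∧
            |Real.log ‖IL N a ((1 + θ) / a ^ 2) ρ (fun y => GA N y t + P y) (fun _ => 1)‖ -
              N * (Psi a (fun y => GA N y t + P y) z).re| ≤ C * (1 + Real.log N) :=
  J_familyD_of hρ hρ1 D (SLD hρ (by linarith) (D + 1))

end Pool.Agent.Helper9.TG
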