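import Pool.Agent.Helper92.TF.JFam4

/-!
# The family of local site integrals, any number of children
-/

namespace Pool.Agent.Helper9.TG

open Complex Finset Filter Topology MeasureTheory
open Pool.Agent.Helper9.TB Pool.Agent.Helper9.TF

/-- the statement of the local site integral for at most `D` children -/
def SLDProp (ρ : ℝ) (D : ℕ) : Prop := ∃ R : ℕ, ∀ a : ℕ, R ≤ a → ∀ d : ℕ,
    1 ≤ d → d ≤ D → ∃ C : ℝ, 0 < C ∧ ∃ N0 : ℕ, ∀ N : ℕ, N0 ≤ N → ∀ X : ℂ → ℂ,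
      DifferentiableOn ℂ X (Metric.ball 0 ρ) → deriv X 0 = 0 → LipS 0 ρ d (d / 2) (deriv X) →
      ∃ y : ℂ, ‖y - 1 / a‖ ≤ 2 * d / a ^ 2 ∧ 2 * Real.pi * I * a * y - 2 * Real.pi * I + deriv X y = 0 ∧
        1 / (C * N) * Real.exp (N * (Psi a X y).re) ≤ ‖IL N a (d / a ^ 2) ρ X (fun _ => 1)‖ ∧
        ‖IL N a (d / a ^ 2) ρ X (fun _ => 1)‖ ≤ C * Real.exp (N * (Psi a X y).re) ∧
        ∀ B : ℂ → ℂ, DifferentiableOn ℂ B (Metric.ball 0 ρ) → (∀ z ∈ Metric.ball (0 : ℂ) ρ, ‖B z‖ ≤ 1) →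
          ‖IL N a (d / a ^ 2) ρ X B - B y * IL N a (d / a ^ 2) ρ X (fun _ => 1)‖ ≤
            C / Real.sqrt N * ‖IL N a (d / a ^ 2) ρ X (fun _ => 1)‖

lemma jfD_lip {C2 : ℝ} (hC2 : ∀ N : ℕ, 20 ≤ N → ∀ y t : ℂ, ‖y‖ < 1 / 20 → ‖t - 1 / 4‖ < 1 / 20 →
    ‖GA N y t - gam y t‖ ≤ C2 * (1 + Real.log N) / N ∧ ‖GAy N y t - gamy y t‖ ≤ C2 / N ∧
    ‖GAt N y t - gamt y t‖ ≤ C2 / N) {N : ℕ} (hN : 20 ≤ N) (hN2 : 100 * C2 ≤ N) {ρ θ : ℝ}
    (hρ1 : ρ ≤ 1 / 1000) {P : ℂ → ℂ} (hP : DifferentiableOn ℂ P (Metric.ball 0 ρ))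
    (hL : LipS 0 ρ θ (θ / 2) (deriv P)) {t : ℂ} (ht : ‖t - 1 / 4‖ < 1 / 200) :
    LipS 0 ρ (1 + θ) ((1 + θ) / 2) (deriv (fun y => GA N y t + P y)) := by
  intro y hy z hz
  rw [(jf_deriv hN hρ1 hP ht hy).deriv, (jf_deriv hN hρ1 hP ht hz).deriv]
  have hy2 : ‖y‖ < ρ := by simpa using hy
  have hz2 : ‖z‖ < ρ := by simpa using hz
  have hN0 : (0 : ℝ) < N := by
    have : (20 : ℝ) ≤ N := by exact_mod_cast hN
    linarith
  have h1 := jf_cauchy (jf_D_diff hN ht) (M := C2 / N) (y := y) (z := z)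
    (fun u hu => (hC2 N hN u t (by simpa using hu) (by linarith)).2.1) (by linarith) (by linarith)
  have h2 := gamy_lip (y := y) (z := z) (t := t) (by linarith) (by linarith) ht
  have h3 := hL y hy z hz
  have h4 : 25 * (C2 / N) ≤ 1 / 4 := by
    rw [show 25 * (C2 / N) = (25 * C2) / N by ring, div_le_iff₀ hN0]
    linarith
  have h5 : 25 * (C2 / N) * ‖y - z‖ ≤ 1 / 4 * ‖y - z‖ :=
    mul_le_mul_of_nonneg_right h4 (norm_nonneg _)
  have e : GAy N y t + deriv P y - (GAy N z t + deriv P z) +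
      2 * Real.pi * ((1 + θ : ℝ) : ℂ) * (y - z) =
      ((GAy N y t - gamy y t) - (GAy N z t - gamy z t)) +
      (gamy y t - gamy z t + 2 * Real.pi * (y - z)) +
      (deriv P y - deriv P z + 2 * Real.pi * θ * (y - z)) := by
    push_cast; ring
  rw [e]
  calc _ ≤ ‖((GAy N y t - gamy y t) - (GAy N z t - gamy z t)) +
      (gamy y t - gamy z t + 2 * Real.pi * (y - z))‖ +
      ‖deriv P y - deriv P z + 2 * Real.pi * θ * (y - z)‖ := norm_add_le _ _
    _ ≤ ‖(GAy N y t - gamy y t) - (GAy N z t - gamy z t)‖ +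
      ‖gamy y t - gamy z t + 2 * Real.pi * (y - z)‖ +
      ‖deriv P y - deriv P z + 2 * Real.pi * θ * (y - z)‖ := by
        gcongr
        exact norm_add_le _ _
    _ ≤ (1 + θ) / 2 * ‖y - z‖ := by linarith

theorem J_familyD_of {ρ : ℝ} (hρ : 0 < ρ) (hρ1 : ρ ≤ 1 / 1000) (D : ℕ)
    (hSLD : SLDProp ρ (D + 1)) : ∃ R : ℕ, ∀ a : ℕ, R ≤ a →
    ∀ θ : ℕ, θ ≤ D → ∃ C : ℝ, 0 < C ∧ ∃ N0 : ℕ, ∀ N : ℕ, N0 ≤ N → ∀ P : ℂ → ℂ,
      DifferentiableOn ℂ P (Metric.ball 0 ρ) → P 0 = 0 → deriv P 0 = 0 →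
      LipS 0 ρ θ (θ / 2) (deriv P) →
      ∃ v w : ℂ → ℂ, v (1 / 4) = 0 ∧
        IL N a ((1 + θ) / a ^ 2) ρ (fun y => GA N y (1 / 4) + P y) (fun _ => 1) ≠ 0 ∧
        ∀ t ∈ Metric.ball (1 / 4 : ℂ) (1 / 200), HasDerivAt v (w t) t ∧
          IL N a ((1 + θ) / a ^ 2) ρ (fun y => GA N y t + P y) (fun _ => 1) =
            IL N a ((1 + θ) / a ^ 2) ρ (fun y => GA N y (1 / 4) + P y) (fun _ => 1) *
              Complex.exp (N * v t) ∧
          ∃ z : ℂ, ‖z - 1 / a‖ ≤ 2 * (1 + θ) / a ^ 2 ∧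
            2 * Real.pi * I * a * z - 2 * Real.pi * I + GAy N z t + deriv P z = 0 ∧
            ‖w t - GAt N z t‖ ≤ C / Real.sqrt N ∧
            |Real.log ‖IL N a ((1 + θ) / a ^ 2) ρ (fun y => GA N y t + P y) (fun _ => 1)‖ -
              N * (Psi a (fun y => GA N y t + P y) z).re| ≤ C * (1 + Real.log N) := by
  obtain ⟨R1, hSL⟩ := hSLD
  obtain ⟨C2, hC2p, hC2⟩ := GA_lim
  obtain ⟨C3, hC3p, hC3⟩ := gamy_cubic
  refine ⟨max R1 (⌈10 * (D + 1) / ρ⌉₊ + 1), fun a ha θ hθ => ?_⟩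
  have haR1 : R1 ≤ a := le_trans (le_max_left _ _) ha
  have ha2 : 10 * ((D : ℝ) + 1) / ρ ≤ a := by
    have h1 : ⌈10 * ((D : ℝ) + 1) / ρ⌉₊ + 1 ≤ a := le_trans (le_max_right _ _) ha
    have h2 : (⌈10 * ((D : ℝ) + 1) / ρ⌉₊ : ℝ) ≤ a := by
      have : (⌈10 * ((D : ℝ) + 1) / ρ⌉₊ : ℕ) ≤ a := by omega
      exact_mod_cast this
    exact le_trans (Nat.le_ceil _) h2
  have hD0 : (0 : ℝ) ≤ D := Nat.cast_nonneg D
  have hθD : (θ : ℝ) ≤ D := by exact_mod_cast hθ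
  have hθ0 : (0 : ℝ) ≤ θ := Nat.cast_nonneg θ
  rw [div_le_iff₀ hρ] at ha2
  have ha10 : (10 : ℝ) ≤ a := by
    have ha00 : (0 : ℝ) ≤ a := Nat.cast_nonneg a
    nlinarith
  have ha0 : (0 : ℝ) < a := by linarith
  have hia : ((D : ℝ) + 1) / (a : ℝ) ≤ ρ / 10 := by
    rw [div_le_div_iff₀ ha0 (by norm_num)]
    linarith
  have hia1 : 1 / (a : ℝ) ≤ ρ / 10 :=
    le_trans (div_le_div_of_nonneg_right (by linarith) ha0.le) hia
  have hiD : (1 + (θ : ℝ)) / (a : ℝ) ^ 2 ≤ ρ / 100 := by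
    have h1 : (1 + (θ : ℝ)) / (a : ℝ) ^ 2 = (1 + (θ : ℝ)) / a * (1 / a) := by
      field_simp
    have h2 : (1 + (θ : ℝ)) / a ≤ ρ / 10 :=
      le_trans (div_le_div_of_nonneg_right (by linarith) ha0.le) hia
    have h3 : 1 / (a : ℝ) ≤ 1 / 10 := one_div_le_one_div_of_le (by norm_num) ha10
    rw [h1]
    calc (1 + (θ : ℝ)) / a * (1 / a) ≤ ρ / 10 * (1 / 10) := by
          apply mul_le_mul h2 h3 (by positivity) (by positivity)
      _ = ρ / 100 := by ring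
  have hh : 0 < (1 + θ) / (a : ℝ) ^ 2 := by positivity
  have hh1 : (1 + θ) / (a : ℝ) ^ 2 < ρ / 2 := by linarith
  obtain ⟨C1, hC1p, N1, hN1⟩ := hSL a haR1 (1 + θ) (by omega) (by omega)
  push_cast at hN1
  set K : ℝ := C2 + C3 + 1 with hK
  have hKp : 0 < K := by positivity
  refine ⟨K * C1 + |Real.log C1| + 1, by positivity, max N1 (max 20 (⌈100 * C2⌉₊)), ?_⟩
  intro N hN P hP hP0 hP1 hL
  have hN1' : N1 ≤ N := le_trans (le_max_left _ _) hN
  have hN20 : 20 ≤ N := le_trans (le_trans (le_max_left _ _) (le_max_right _ _)) hN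
  have hNC : 100 * C2 ≤ N := by
    have h1 : ⌈100 * C2⌉₊ ≤ N := le_trans (le_trans (le_max_right _ _) (le_max_right _ _)) hN
    exact le_trans (Nat.le_ceil _) (by exact_mod_cast h1)
  have hNr : (20 : ℝ) ≤ N := by exact_mod_cast hN20
  have hN0 : (0 : ℝ) < N := by linarith
  have hNc : (N : ℂ) ≠ 0 := by
    have : N ≠ 0 := by omega
    exact_mod_cast this
  -- the facts for each `t`
  have hfact : ∀ t ∈ Metric.ball (1 / 4 : ℂ) (1 / 200), ∃ z : ℂ, ‖z - 1 / a‖ ≤ 2 * (1 + θ) / a ^ 2 ∧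
      2 * Real.pi * I * a * z - 2 * Real.pi * I + deriv (fun y => GA N y t + P y) z = 0 ∧
        1 / (C1 * N) * Real.exp (N * (Psi a (fun y => GA N y t + P y) z).re) ≤
          ‖IL N a ((1 + θ) / a ^ 2) ρ (fun y => GA N y t + P y) (fun _ => 1)‖ ∧
        ‖IL N a ((1 + θ) / a ^ 2) ρ (fun y => GA N y t + P y) (fun _ => 1)‖ ≤
          C1 * Real.exp (N * (Psi a (fun y => GA N y t + P y) z).re) ∧
        ∀ B : ℂ → ℂ, DifferentiableOn ℂ B (Metric.ball 0 ρ) →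
          (∀ z ∈ Metric.ball (0 : ℂ) ρ, ‖B z‖ ≤ 1) →
          ‖IL N a ((1 + θ) / a ^ 2) ρ (fun y => GA N y t + P y) B -
            B z * IL N a ((1 + θ) / a ^ 2) ρ (fun y => GA N y t + P y) (fun _ => 1)‖ ≤
            C1 / Real.sqrt N *
              ‖IL N a ((1 + θ) / a ^ 2) ρ (fun y => GA N y t + P y) (fun _ => 1)‖ := by
    intro t ht
    rw [Metric.mem_ball, dist_eq_norm] at ht
    apply hN1 N hN1' (fun y => GA N y t + P y)
    · intro y hy
      exact (jf_deriv hN20 hρ1 hP ht hy).differentiableAt.differentiableWithinAt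
    · rw [(jf_deriv hN20 hρ1 hP ht (Metric.mem_ball_self hρ)).deriv, hP1]
      unfold GAy
      simp
    · exact jfD_lip hC2 hN20 hNC hρ1 hP hL ht
  have hpos : ∀ t ∈ Metric.ball (1 / 4 : ℂ) (1 / 200),
      0 < ‖IL N a ((1 + θ) / a ^ 2) ρ (fun y => GA N y t + P y) (fun _ => 1)‖ := by
    intro t ht
    obtain ⟨z, -, -, h1, -, -⟩ := hfact t ht
    have : 0 < 1 / (C1 * N) * Real.exp (N * (Psi a (fun y => GA N y t + P y) z).re) := by
      positivity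
    linarith
  obtain ⟨v, hv0, hv⟩ := jf_exp_form
    (J := fun t => IL N a ((1 + θ) / a ^ 2) ρ (fun y => GA N y t + P y) (fun _ => 1))
    (J' := fun t => IL N a ((1 + θ) / a ^ 2) ρ (fun y => GA N y t + P y) (fun y => GAt N y t))
    hNc (c := 1 / 4) (r := 1 / 200) (by norm_num)
    (fun t ht => jf_hasDeriv hN20 hh hρ1 hh1 hP ht)
    (fun t ht => norm_pos_iff.mp (hpos t ht))
  refine ⟨v, fun t => IL N a ((1 + θ) / a ^ 2) ρ (fun y => GA N y t + P y) (fun y => GAt N y t) /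
    IL N a ((1 + θ) / a ^ 2) ρ (fun y => GA N y t + P y) (fun _ => 1), hv0, ?_, ?_⟩
  · exact norm_pos_iff.mp (hpos (1 / 4) (Metric.mem_ball_self (by norm_num)))
  intro t ht
  refine ⟨(hv t ht).1, (hv t ht).2, ?_⟩
  obtain ⟨z, hz1, hz2, hlow, hup, hav⟩ := hfact t ht
  have hJp := hpos t ht
  rw [Metric.mem_ball, dist_eq_norm] at ht
  have hzb : ‖z‖ < ρ := by
    have h1 : ‖z‖ ≤ ‖z - 1 / a‖ + ‖(1 / a : ℂ)‖ := by
      calc ‖z‖ = ‖(z - 1 / a) + 1 / a‖ := by rw [sub_add_cancel]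
        _ ≤ _ := norm_add_le _ _
    have h2 : ‖(1 / a : ℂ)‖ = 1 / a := by
      rw [norm_div, norm_one, Complex.norm_natCast]
    have h3 : 2 * (1 + (θ : ℝ)) / (a : ℝ) ^ 2 = 2 * ((1 + θ) / (a : ℝ) ^ 2) := by ring
    rw [h2] at h1
    rw [h3] at hz1
    linarith
  have hzm : z ∈ Metric.ball (0 : ℂ) ρ := by simpa using hzb
  refine ⟨z, hz1, ?_, ?_, ?_⟩
  · rw [(jf_deriv hN20 hρ1 hP ht hzm).deriv] at hz2
    rw [← hz2]; ring
  · -- the average
    have hB := hav (fun y => GAt N y t / K)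
      (by
        apply DifferentiableOn.div_const
        exact (GAt_diff_y hN20 (by linarith)).mono (Metric.ball_subset_ball (by linarith)))
      (by
        intro u hu
        have hu2 : ‖u‖ < ρ := by simpa using hu
        have h1 := jf_GAt_bound hC2p hC3p hC2 hC3 hN20 (y := u) (t := t) (by linarith) ht
        rw [norm_div, Complex.norm_real, Real.norm_of_nonneg hKp.le, div_le_one hKp]
        exact h1)
    rw [jf_IL_div] at hB
    set J := IL N a ((1 + θ) / a ^ 2) ρ (fun y => GA N y t + P y) (fun _ => 1) with hJ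
    set JB := IL N a ((1 + θ) / a ^ 2) ρ (fun y => GA N y t + P y) (fun y => GAt N y t) with hJB
    have hJne : J ≠ 0 := norm_pos_iff.mp hJp
    have hKc : (K : ℂ) ≠ 0 := by exact_mod_cast hKp.ne'
    have e : JB / J - GAt N z t = K * (JB / K - GAt N z t / K * J) / J := by
      field_simp
    rw [e, norm_div, norm_mul, Complex.norm_real, Real.norm_of_nonneg hKp.le, div_le_iff₀ hJp]
    have hs : 0 < Real.sqrt N := Real.sqrt_pos.mpr hN0
    calc K * ‖JB / K - GAt N z t / K * J‖ ≤ K * (C1 / Real.sqrt N * ‖J‖) := by gcongr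
      _ = (K * C1) / Real.sqrt N * ‖J‖ := by ring
      _ ≤ (K * C1 + |Real.log C1| + 1) / Real.sqrt N * ‖J‖ := by
        gcongr
        have := abs_nonneg (Real.log C1)
        linarith
  · -- the logarithm
    set J := IL N a ((1 + θ) / a ^ 2) ρ (fun y => GA N y t + P y) (fun _ => 1) with hJ
    set x := (Psi a (fun y => GA N y t + P y) z).re with hx
    have hlogN : 0 ≤ Real.log N := Real.log_nonneg (by linarith)
    have h1 : Real.log ‖J‖ ≤ Real.log C1 + N * x := by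
      have h := Real.log_le_log hJp hup
      rwa [Real.log_mul hC1p.ne' (Real.exp_pos _).ne', Real.log_exp] at h
    have h2 : -(Real.log C1 + Real.log N) + N * x ≤ Real.log ‖J‖ := by
      have h := Real.log_le_log (by positivity) hlow
      rwa [Real.log_mul (by positivity) (Real.exp_pos _).ne', Real.log_exp, one_div,
        Real.log_inv, Real.log_mul hC1p.ne' hN0.ne'] at h
    have h3 := le_abs_self (Real.log C1)
    have h4 := neg_abs_le (Real.log C1)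
    have h5 : 0 ≤ K * C1 := by positivity
    have h6 := abs_nonneg (Real.log C1)
    rw [abs_le]
    constructor
    · nlinarith [mul_nonneg h5 hlogN, mul_nonneg h6 hlogN]
    · nlinarith [mul_nonneg h5 hlogN, mul_nonneg h6 hlogN]

end Pool.Agent.Helper9.TG
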