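import Pool.Agent.Helper85.TF.SL
import Pool.Agent.Helper92.TG.JFamD

/-!
# The geometry of the exponent of a twist region near the critical point, any number of children
-/

namespace Pool.Agent.Helper9.TG

open Complex Finset
open Pool.Agent.Helper9.TB Pool.Agent.Helper9.TF

/-- the critical point (contraction), in terms of the slope `S` only -/
theorem crit_existsD {ρ : ℝ} (hρ : 0 < ρ) (hρ1 : ρ ≤ 1 / 10) {a : ℕ} {d : ℝ} (hd : 1 ≤ d)
    (had : 1000 * d ≤ ρ * a) {S : ℂ → ℂ} (hS0 : S 0 = 0) (hS : LipS 0 ρ d (d / 2) S) :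
    ∃ y : ℂ, ‖y - 1 / a‖ ≤ 2 * d / a ^ 2 ∧ 2 * Real.pi * I * a * y - 2 * Real.pi * I + S y = 0 := by
  have haR0 : (0 : ℝ) ≤ a := Nat.cast_nonneg a
  have ha10 : 10000 * d ≤ (a : ℝ) := by nlinarith
  have ha0 : (0 : ℝ) < a := by linarith
  have hac : (a : ℂ) ≠ 0 := by exact_mod_cast ha0.ne'
  have hd0 : 0 ≤ d := by linarith
  have hpi := Real.pi_pos
  have hpi3 := Real.pi_gt_three
  have hpi4 := Real.pi_lt_d2
  have hk : 0 < 1 / (a : ℝ) := by positivity
  have hdk : d * (1 / (a : ℝ)) ≤ 1 / 10000 := by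
    rw [mul_one_div, div_le_iff₀ ha0]
    linarith
  have hdkρ : 1000 * (d * (1 / (a : ℝ))) ≤ ρ := by
    rw [mul_one_div, ← mul_div_assoc, div_le_iff₀ ha0]
    linarith
  have h2k : 2 * d / (a : ℝ) ^ 2 = 2 * (d * (1 / a)) * (1 / a) := by
    field_simp
  -- the ball
  set s : Set ℂ := Metric.closedBall (1 / (a : ℂ)) (2 * d / (a : ℝ) ^ 2) with hs
  have hnorm : ∀ z ∈ s, ‖z‖ ≤ (10002 / 10000) * (1 / a) := by
    intro z hz
    rw [hs, Metric.mem_closedBall, dist_eq_norm] at hz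
    have e : z = 1 / (a : ℂ) + (z - 1 / a) := by ring
    rw [e]
    refine (norm_add_le _ _).trans ?_
    have : ‖(1 : ℂ) / a‖ = 1 / a := by rw [norm_div, norm_one, Complex.norm_natCast]
    rw [this]
    rw [h2k] at hz
    have h3 : 2 * (d * (1 / (a : ℝ))) * (1 / a) ≤ 2 * (1 / 10000) * (1 / a) := by gcongr
    linarith
  have hball : ∀ z ∈ s, z ∈ Metric.ball (0 : ℂ) ρ := by
    intro z hz
    rw [Metric.mem_ball, dist_zero_right]
    have h1 := hnorm z hz
    nlinarith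
  have h0ball : (0 : ℂ) ∈ Metric.ball (0 : ℂ) ρ := Metric.mem_ball_self hρ
  set Φ : ℂ → ℂ := fun z => 1 / (a : ℂ) - S z / (2 * Real.pi * I * a) with hΦ
  have hden : ‖(2 : ℂ) * Real.pi * I * a‖ = 2 * Real.pi * a := by
    rw [norm_mul, norm_mul, norm_mul, Complex.norm_real, Complex.norm_natCast, Complex.norm_I,
      Real.norm_eq_abs, abs_of_pos hpi, Complex.norm_ofNat]
    ring
  have hmaps : Set.MapsTo Φ s s := by
    intro z hz
    rw [hs, Metric.mem_closedBall, dist_eq_norm]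
    have e : Φ z - 1 / (a : ℂ) = -(S z / (2 * Real.pi * I * a)) := by rw [hΦ]; ring
    rw [e, norm_neg, norm_div, hden]
    have h1 := hS.norm_add_le (hball z hz) h0ball hd0
    rw [hS0, sub_zero, sub_zero] at h1
    have h2 := hnorm z hz
    have h3 : (2 * Real.pi * d + d / 2) ≤ 2 * Real.pi * (11 / 10 * d) := by nlinarith
    rw [div_le_iff₀ (by positivity)]
    calc ‖S z‖ ≤ (2 * Real.pi * d + d / 2) * ‖z‖ := h1
      _ ≤ (2 * Real.pi * (11 / 10 * d)) * ((10002 / 10000) * (1 / a)) := by gcongr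
      _ = (2 * Real.pi) * (11 / 10 * (10002 / 10000)) * d * (1 / a) := by ring
      _ ≤ (2 * Real.pi) * 2 * d * (1 / a) := by gcongr; norm_num
      _ = 2 * d / (a : ℝ) ^ 2 * (2 * Real.pi * a) := by field_simp
  have hK : (1 / 2 : NNReal) < 1 := by
    rw [← NNReal.coe_lt_coe]; push_cast; norm_num
  have hcontr : ContractingWith (1 / 2 : NNReal) (hmaps.restrict Φ s s) := by
    refine ⟨hK, ?_⟩
    apply LipschitzWith.of_dist_le_mul
    rintro ⟨y, hy⟩ ⟨z, hz⟩
    rw [Subtype.dist_eq, Subtype.dist_eq]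
    simp only [Set.MapsTo.val_restrict_apply]
    have hhalf : ((1 / 2 : NNReal) : ℝ) = 1 / 2 := by push_cast; ring
    rw [hhalf]
    rw [dist_eq_norm, dist_eq_norm]
    have e : Φ y - Φ z = -((S y - S z) / (2 * Real.pi * I * a)) := by rw [hΦ]; ring
    rw [e, norm_neg, norm_div, hden, div_le_iff₀ (by positivity)]
    have h1 := hS.norm_add_le (hball y hy) (hball z hz) hd0
    calc ‖S y - S z‖ ≤ (2 * Real.pi * d + d / 2) * ‖y - z‖ := h1
      _ ≤ (1 / 2 * (2 * Real.pi * a)) * ‖y - z‖ := by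
          gcongr
          nlinarith
      _ = _ := by ring
  obtain ⟨y, hy, hfix, -, -⟩ := ContractingWith.exists_fixedPoint' (x := 1 / (a : ℂ))
    (Metric.isClosed_closedBall.isComplete) hmaps hcontr
    (Metric.mem_closedBall_self (by positivity)) (edist_ne_top _ _)
  refine ⟨y, ?_, ?_⟩
  · rw [hs, Metric.mem_closedBall, dist_eq_norm] at hy
    exact hy
  · have h1 : 1 / (a : ℂ) - S y / (2 * Real.pi * I * a) = y := hfix
    have h2 : (2 : ℂ) * Real.pi * I * a ≠ 0 := by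
      rw [← norm_ne_zero_iff, hden]; positivity
    have h3 : (2 : ℂ) * Real.pi * I * a * (1 / (a : ℂ) - S y / (2 * Real.pi * I * a)) =
        2 * Real.pi * I * a * y := by rw [h1]
    have h4 : (2 : ℂ) * Real.pi * I * a * (1 / (a : ℂ) - S y / (2 * Real.pi * I * a)) =
        2 * Real.pi * I - S y := by
      have hI : (2 : ℂ) * Real.pi * I ≠ 0 := fun h => h2 (by rw [h, zero_mul])
      field_simp
    rw [← h3, h4]
    ring

/-- the scaled Taylor estimate -/
theorem taylor_critE {c : ℂ} {r : ℝ} {e : ℝ} (he : 0 < e) {T : ℂ → ℂ}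
    (hT : DifferentiableOn ℂ T (Metric.ball c r))
    {q : ℂ} (hq : ∀ u ∈ Metric.ball c r, ∀ v ∈ Metric.ball c r,
      ‖deriv T u - deriv T v - q * (u - v)‖ ≤ e * ‖u - v‖)
    {t : ℂ} (ht : t ∈ Metric.ball c r) (hc : deriv T t = 0) {w : ℂ} (hw : w ∈ Metric.ball c r) :
    ‖T w - T t - q * (w - t) ^ 2 / 2‖ ≤ e * ‖w - t‖ ^ 2 := by
  have hec : (e : ℂ) ≠ 0 := by exact_mod_cast he.ne'
  have hne : ‖(e : ℂ)⁻¹‖ = e⁻¹ := by
    rw [norm_inv, Complex.norm_real, Real.norm_of_nonneg he.le]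
  have hd : ∀ u ∈ Metric.ball c r, deriv (fun z => (e : ℂ)⁻¹ * T z) u = (e : ℂ)⁻¹ * deriv T u := by
    intro u hu
    exact (((hT.differentiableAt (Metric.isOpen_ball.mem_nhds hu)).hasDerivAt).const_mul _).deriv
  have h := taylor_crit (c := c) (r := r) (T := fun z => (e : ℂ)⁻¹ * T z) (q := (e : ℂ)⁻¹ * q)
    (hT.const_mul _) (by
      intro u hu v hv
      rw [hd u hu, hd v hv]
      have e1 : (e : ℂ)⁻¹ * deriv T u - (e : ℂ)⁻¹ * deriv T v - (e : ℂ)⁻¹ * q * (u - v) =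
        (e : ℂ)⁻¹ * (deriv T u - deriv T v - q * (u - v)) := by ring
      rw [e1, norm_mul, hne, inv_mul_le_iff₀ he]
      exact hq u hu v hv) ht (by rw [hd t ht, hc, mul_zero]) hw
  have e2 : (e : ℂ)⁻¹ * T w - (e : ℂ)⁻¹ * T t - (e : ℂ)⁻¹ * q * (w - t) ^ 2 / 2 =
      (e : ℂ)⁻¹ * (T w - T t - q * (w - t) ^ 2 / 2) := by ring
  rw [e2, norm_mul, hne, inv_mul_le_iff₀ he] at h
  exact h

/-- the data of a twist region -/
structure SCtxD (ρ d : ℝ) (a : ℕ) (X : ℂ → ℂ) (y : ℂ) : Prop where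
  hρ : 0 < ρ
  hρ1 : ρ ≤ 1 / 10
  had : 1000 * d ≤ ρ * a
  hd1 : 1 ≤ d
  hX : DifferentiableOn ℂ X (Metric.ball 0 ρ)
  hL : LipS 0 ρ d (d / 2) (deriv X)
  hX0 : deriv X 0 = 0
  hy : ‖y - 1 / a‖ ≤ 2 * d / a ^ 2
  hc : 2 * Real.pi * I * a * y - 2 * Real.pi * I + deriv X y = 0

variable {ρ d : ℝ} {a : ℕ} {X : ℂ → ℂ} {y : ℂ}

lemma SCtxD.a_ge (h : SCtxD ρ d a X y) : 10000 * d ≤ (a : ℝ) := by
  have h1 := h.had
  have h2 := h.hρ1
  have h3 := h.hρ
  have h4 : (0 : ℝ) ≤ a := Nat.cast_nonneg a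
  nlinarith

lemma SCtxD.ha (h : SCtxD ρ d a X y) : (200 : ℝ) ≤ a := by linarith [h.a_ge, h.hd1]

lemma SCtxD.a_pos (h : SCtxD ρ d a X y) : (0 : ℝ) < a := by linarith [h.ha]

lemma SCtxD.dk (h : SCtxD ρ d a X y) : d * (1 / (a : ℝ)) ≤ 1 / 10000 := by
  rw [mul_one_div, div_le_iff₀ h.a_pos]
  linarith [h.a_ge]

lemma SCtxD.dkρ (h : SCtxD ρ d a X y) : 1000 * (d * (1 / (a : ℝ))) ≤ ρ := by
  rw [mul_one_div, ← mul_div_assoc, div_le_iff₀ h.a_pos]
  linarith [h.had]

lemma SCtxD.inv_a (h : SCtxD ρ d a X y) : 1 / (a : ℝ) ≤ ρ / 1000 := by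
  have h1 := h.dkρ
  have h2 := h.hd1
  have h3 : 0 < 1 / (a : ℝ) := by have := h.a_pos; positivity
  nlinarith

lemma SCtxD.two (h : SCtxD ρ d a X y) : 2 * d / (a : ℝ) ^ 2 ≤ (1 / 5000) * (1 / a) := by
  have h1 := h.dk
  have h2 := h.a_pos
  have h3 : 0 < 1 / (a : ℝ) := by positivity
  have e : 2 * d / (a : ℝ) ^ 2 = 2 * (d * (1 / a)) * (1 / a) := by
    field_simp
  rw [e]
  nlinarith

lemma SCtxD.re_bounds (h : SCtxD ρ d a X y) : 0 < y.re ∧ y.re ≤ 2 * (1 / a) ∧ |y.im| ≤ 1 / a := by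
  have h1 := h.hy
  have h2 := h.two
  have h3 := h.a_pos
  have h4 := (Complex.abs_re_le_norm (y - 1 / a)).trans h1
  have h5 := (Complex.abs_im_le_norm (y - 1 / a)).trans h1
  have e : ((1 : ℂ) / a) = ((1 / a : ℝ) : ℂ) := by push_cast; ring
  rw [e, Complex.sub_re, Complex.ofReal_re] at h4
  rw [e, Complex.sub_im, Complex.ofReal_im, sub_zero] at h5
  have h6 : 0 < 1 / (a : ℝ) := by positivity
  rw [abs_le] at h4
  refine ⟨by linarith [h4.1], by linarith [h4.2], by linarith⟩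

lemma SCtxD.norm_y (h : SCtxD ρ d a X y) : ‖y‖ ≤ (5001 / 5000) * (1 / a) := by
  have h1 := h.hy
  have h2 := h.two
  have h3 := h.a_pos
  have e : y = 1 / (a : ℂ) + (y - 1 / a) := by ring
  rw [e]
  refine (norm_add_le _ _).trans ?_
  have : ‖(1 : ℂ) / a‖ = 1 / a := by rw [norm_div, norm_one, Complex.norm_natCast]
  rw [this]
  linarith

lemma SCtxD.y_mem (h : SCtxD ρ d a X y) : y ∈ Metric.ball (0 : ℂ) ρ := by
  have h1 := h.norm_y
  have h2 := h.inv_a
  have h3 := h.hρ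
  rw [Metric.mem_ball, dist_zero_right]
  linarith

/-- the location of the critical point -/
lemma SCtxD.loc (h : SCtxD ρ d a X y) :
    ‖y - (1 / a - I * (d * (1 / a) ^ 2))‖ ≤ 1 / 10 * (d * (1 / (a : ℝ)) ^ 2) := by
  have hc := h.hc
  have ha := h.a_pos
  have hac : (a : ℂ) ≠ 0 := by exact_mod_cast ha.ne'
  have hpi := Real.pi_pos
  have hpi3 := Real.pi_gt_d2
  have hpic : (Real.pi : ℂ) ≠ 0 := by exact_mod_cast hpi.ne'
  have hd1 := h.hd1
  have hd0 : 0 < d := by linarith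
  obtain ⟨L, hL, hLn⟩ : ∃ L : ℂ, deriv X y = L - 2 * Real.pi * d * y ∧ ‖L‖ ≤ d / 2 * ‖y‖ := by
    refine ⟨deriv X y + 2 * Real.pi * d * y, by ring, ?_⟩
    have := h.hL y h.y_mem 0 (Metric.mem_ball_self h.hρ)
    rw [h.hX0] at this
    simp only [sub_zero] at this
    linarith
  have hLe : L = 2 * Real.pi * (-(I * a * y) + I + d * y) := by
    rw [hL] at hc
    linear_combination hc
  have e1 : I * L / (2 * Real.pi * a) = y - 1 / a + I * (d * y * (1 / a)) := by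
    rw [hLe]
    field_simp
    linear_combination (-(a : ℂ) * y + 1) * Complex.I_sq
  have e : y - (1 / a - I * (d * (1 / a) ^ 2)) =
      -(I * (d * (1 / a))) * (y - 1 / a) + I * L / (2 * Real.pi * a) := by
    rw [e1]
    ring
  have hk : 0 < 1 / (a : ℝ) := by positivity
  have hdk := h.dk
  have n1 : ‖-(I * (d * (1 / a))) * (y - 1 / a)‖ ≤ d * (1 / a) * (2 * d / (a : ℝ) ^ 2) := by
    rw [norm_mul, norm_neg, norm_mul, norm_mul, Complex.norm_I, one_mul, Complex.norm_real,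
      Real.norm_eq_abs, abs_of_pos hd0, norm_div, norm_one, Complex.norm_natCast]
    gcongr
    exact h.hy
  have n2 : ‖I * L / (2 * Real.pi * a)‖ ≤ d / 2 * ((5001 / 5000) * (1 / a)) / (2 * Real.pi * a) := by
    rw [norm_div, norm_mul, Complex.norm_I, one_mul, norm_mul, norm_mul, Complex.norm_ofNat,
      Complex.norm_real, Complex.norm_natCast, Real.norm_eq_abs, abs_of_pos hpi]
    gcongr
    refine hLn.trans ?_
    have := h.norm_y
    gcongr
  rw [e]
  refine (norm_add_le _ _).trans ?_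
  have n3 : d * (1 / a) * (2 * d / (a : ℝ) ^ 2) ≤ 1 / 5000 * (d * (1 / (a : ℝ)) ^ 2) := by
    calc d * (1 / a) * (2 * d / (a : ℝ) ^ 2) = 2 * (d * (1 / (a : ℝ))) * (d * (1 / (a : ℝ)) ^ 2) := by
          ring
      _ ≤ 2 * (1 / 10000) * (d * (1 / (a : ℝ)) ^ 2) := by gcongr
      _ = _ := by ring
  have n4 : d / 2 * ((5001 / 5000) * (1 / a)) / (2 * Real.pi * a) ≤
      9 / 100 * (d * (1 / (a : ℝ)) ^ 2) := by
    rw [div_le_iff₀ (by positivity)]
    have e3 : 9 / 100 * (d * (1 / (a : ℝ)) ^ 2) * (2 * Real.pi * a) =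
        (18 / 100 * Real.pi) * (d * (1 / a)) := by
      field_simp
      ring
    have e4 : d / 2 * ((5001 / 5000) * (1 / (a : ℝ))) = (5001 / 10000) * (d * (1 / a)) := by ring
    rw [e3, e4]
    gcongr
    linarith
  have hp : 0 < d * (1 / (a : ℝ)) ^ 2 := by positivity
  linarith

lemma SCtxD.im_loc (h : SCtxD ρ d a X y) :
    |y.im + d * (1 / (a : ℝ)) ^ 2| ≤ 1 / 10 * (d * (1 / (a : ℝ)) ^ 2) := by
  have h1 := (Complex.abs_im_le_norm _).trans h.loc
  have e : ((1 : ℂ) / a - I * (d * (1 / a) ^ 2)) =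
      ((1 / a : ℝ) : ℂ) - I * ((d * (1 / a) ^ 2 : ℝ) : ℂ) := by push_cast; ring
  rw [e, Complex.sub_im, Complex.sub_im, Complex.ofReal_im, Complex.I_mul_im,
    Complex.ofReal_re] at h1
  rw [show y.im + d * (1 / (a : ℝ)) ^ 2 = y.im - (0 - d * (1 / a) ^ 2) by ring]
  exact h1

/-- Taylor estimate of the exponent -/
lemma SCtxD.taylor (h : SCtxD ρ d a X y) {z : ℂ} (hz : z ∈ Metric.ball (0 : ℂ) ρ) :
    ‖Psi a X z - Psi a X y - (Real.pi * I * a - Real.pi * d) * (z - y) ^ 2‖ ≤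
      d / 2 * ‖z - y‖ ^ 2 := by
  have hder : ∀ u ∈ Metric.ball (0 : ℂ) ρ, HasDerivAt (Psi a X)
      (2 * Real.pi * I * a * u - 2 * Real.pi * I + deriv X u) u := by
    intro u hu
    have h1 : HasDerivAt X (deriv X u) u :=
      (h.hX.differentiableAt (Metric.isOpen_ball.mem_nhds hu)).hasDerivAt
    have h2 : HasDerivAt (fun y : ℂ => Real.pi * I * a * y ^ 2) (2 * Real.pi * I * a * u) u := by
      refine ((hasDerivAt_pow 2 u).const_mul (Real.pi * I * a : ℂ)).congr_deriv ?_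
      push_cast
      ring
    have h3 : HasDerivAt (fun y : ℂ => 2 * Real.pi * I * y) (2 * Real.pi * I) u := by
      simpa using (hasDerivAt_id u).const_mul (2 * Real.pi * I : ℂ)
    exact (h2.sub h3).add h1
  have hdiff : DifferentiableOn ℂ (Psi a X) (Metric.ball 0 ρ) := fun u hu =>
    (hder u hu).differentiableAt.differentiableWithinAt
  have hq : ∀ u ∈ Metric.ball (0 : ℂ) ρ, ∀ v ∈ Metric.ball (0 : ℂ) ρ,
      ‖deriv (Psi a X) u - deriv (Psi a X) v - (2 * Real.pi * I * a - 2 * Real.pi * d) * (u - v)‖ ≤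
        d / 2 * ‖u - v‖ := by
    intro u hu v hv
    rw [(hder u hu).deriv, (hder v hv).deriv]
    have h1 := h.hL u hu v hv
    refine le_trans (le_of_eq ?_) h1
    congr 1
    ring
  have hc0 : deriv (Psi a X) y = 0 := by rw [(hder y h.y_mem).deriv]; exact h.hc
  have h1 := taylor_critE (by linarith [h.hd1] : 0 < d / 2) hdiff hq h.y_mem hc0 hz
  refine le_trans (le_of_eq ?_) h1
  congr 1
  ring

lemma SCtxD.re_le (h : SCtxD ρ d a X y) {z : ℂ} (hz : z ∈ Metric.ball (0 : ℂ) ρ) :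
    (Psi a X z).re ≤ (Psi a X y).re + (-(Real.pi * d) * ((z.re - y.re) ^ 2 - (z.im - y.im) ^ 2) -
      2 * Real.pi * a * (z.re - y.re) * (z.im - y.im) +
      d / 2 * ((z.re - y.re) ^ 2 + (z.im - y.im) ^ 2)) := by
  have h1 := (Complex.re_le_norm _).trans (h.taylor hz)
  have e1 : ‖z - y‖ ^ 2 = (z.re - y.re) ^ 2 + (z.im - y.im) ^ 2 := by
    rw [← Complex.normSq_eq_norm_sq, Complex.normSq_apply, Complex.sub_re, Complex.sub_im]
    ring
  have e2 : ((Real.pi * I * a - Real.pi * d) * (z - y) ^ 2 : ℂ).re =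
      -(Real.pi * d) * ((z.re - y.re) ^ 2 - (z.im - y.im) ^ 2) -
      2 * Real.pi * a * (z.re - y.re) * (z.im - y.im) := by
    have : (Real.pi * I * a - Real.pi * d : ℂ) =
        ((-(Real.pi * d) : ℝ) : ℂ) + ((Real.pi * a : ℝ) : ℂ) * I := by push_cast; ring
    rw [this, sq (z - y)]
    simp only [Complex.mul_re, Complex.add_re, Complex.ofReal_re, Complex.ofReal_im, Complex.I_re,
      Complex.I_im, Complex.add_im, Complex.mul_im, Complex.sub_re, Complex.sub_im]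
    ring
  rw [Complex.sub_re, Complex.sub_re, e1, e2] at h1
  linarith

/-- the key real inequality on the flat line -/
lemma flat_ineqD {p a k x η d : ℝ} (hp1 : 3.14 < p) (hp2 : p < 3.15) (hk : 0 < k)
    (hdk : d * k ≤ 1 / 10000)
    (hak : a * k = 1) (hd1 : 1 ≤ d) (hη : |η| ≤ 1 / 10 * (d * k ^ 2)) :
    -(p * d) * (x ^ 2 - η ^ 2) - 2 * p * a * x * η + d / 2 * (x ^ 2 + η ^ 2) ≤
      1 / 10 * (d * k ^ 2) := by
  have ha : 0 < a := by
    by_contra h
    push Not at h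
    nlinarith
  have hd0 : 0 < d := by linarith
  have h1 : -(2 * p * a * x * η) ≤ 63 / 100 * (d * (|x| * k)) := by
    have a1 : -(2 * p * a * x * η) ≤ |2 * p * a * x * η| := neg_le_abs _
    have a2 : |2 * p * a * x * η| = 2 * p * a * |x| * |η| := by
      rw [abs_mul, abs_mul, abs_mul, abs_mul, abs_of_pos (show (0 : ℝ) < 2 by norm_num),
        abs_of_pos (show 0 < p by linarith), abs_of_pos ha]
    have a3 : 2 * p * a * |x| * |η| ≤ 2 * p * a * |x| * (1 / 10 * (d * k ^ 2)) := by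
      gcongr
    have a4 : 2 * p * a * |x| * (1 / 10 * (d * k ^ 2)) = (1 / 5 * p) * (d * (|x| * k)) * (a * k) := by
      ring
    have a5 : (1 / 5 * p) * (d * (|x| * k)) ≤ 63 / 100 * (d * (|x| * k)) := by
      have : 0 ≤ d * (|x| * k) := by positivity
      gcongr
      linarith
    rw [a4, hak, mul_one] at a3
    linarith
  have h2 : η ^ 2 ≤ 1 / 100 * (d * k ^ 2) ^ 2 := by
    have := pow_le_pow_left₀ (abs_nonneg η) hη 2
    rw [sq_abs] at this
    nlinarith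
  have h3 : (d * k ^ 2) ^ 2 ≤ 1 / 100000000 * k ^ 2 := by
    have e : (d * k ^ 2) ^ 2 = (d * k) ^ 2 * k ^ 2 := by ring
    rw [e]
    have : (d * k) ^ 2 ≤ (1 / 10000) ^ 2 := by
      apply pow_le_pow_left₀ (by positivity) hdk
    nlinarith [sq_nonneg k]
  have h4 : (p * d - d / 2) * x ^ 2 ≥ d * (2 * x ^ 2) := by
    have : 2 * d ≤ p * d - d / 2 := by nlinarith
    nlinarith [sq_nonneg x]
  have h5 : (p * d + d / 2) * η ^ 2 ≤ d * (4 * η ^ 2) := by
    have : p * d + d / 2 ≤ 4 * d := by nlinarith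
    nlinarith [sq_nonneg η]
  have h6 : d * (-2 * x ^ 2 + 63 / 100 * (|x| * k)) ≤ d * (6 / 100 * k ^ 2) := by
    apply mul_le_mul_of_nonneg_left _ hd0.le
    have : |x| ^ 2 = x ^ 2 := sq_abs x
    nlinarith [sq_nonneg (|x| - 63 / 400 * k)]
  have h7 : d * (4 * η ^ 2) ≤ d * (1 / 100 * k ^ 2) := by
    apply mul_le_mul_of_nonneg_left _ hd0.le
    linarith [sq_nonneg k]
  have h8 : 0 ≤ d * k ^ 2 := by positivity
  nlinarith

/-- the key real inequality on the connectors -/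
lemma conn_ineqD {p a k x η d ρ : ℝ} (hp1 : 3.14 < p) (hp2 : p < 3.15) (hk : 0 < k)
    (hdk : 1000 * (d * k) ≤ ρ) (hρ1 : ρ ≤ 1 / 10)
    (hak : a * k = 1) (hd1 : 1 ≤ d) (hx : 12 / 25 * ρ ≤ x)
    (hη : -(1 / 10 * (d * k ^ 2)) ≤ η) (hηx : η ≤ x) :
    -(p * d) * (x ^ 2 - η ^ 2) - 2 * p * a * x * η + d / 2 * (x ^ 2 + η ^ 2) ≤ -(ρ ^ 2 / 4) := by
  have hd0 : 0 < d := by linarith
  have hρ0 : 0 < ρ := by nlinarith [mul_pos hd0 hk]
  have had : 10000 * d ≤ a := by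
    have h1 : 10000 * (d * k) ≤ a * k := by rw [hak]; linarith
    by_contra h
    push Not at h
    nlinarith
  have hx0 : 0 < x := by nlinarith
  have h4 : (p * d - d / 2) * x ^ 2 ≥ d * (2 * x ^ 2) := by
    have : 2 * d ≤ p * d - d / 2 := by nlinarith
    nlinarith [sq_nonneg x]
  have hxx : ρ ^ 2 * (144 / 625) ≤ x ^ 2 := by nlinarith
  have h5 : (p * d + d / 2) * η ^ 2 ≤ d * (4 * η ^ 2) := by
    have : p * d + d / 2 ≤ 4 * d := by nlinarith
    nlinarith [sq_nonneg η]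
  have hdx : x ^ 2 ≤ d * x ^ 2 := by nlinarith [sq_nonneg x]
  rcases le_total 0 η with h0 | h0
  · have h6 : d * (4 * η ^ 2) ≤ 2 * p * a * x * η := by
      have h7 : d * (4 * η) ≤ 2 * p * a * x := by
        have h8 : d * (4 * η) ≤ d * (4 * x) := by gcongr
        have h9 : d * (4 * x) ≤ 2 * p * a * x := by
          have : d * 4 ≤ 2 * p * a := by nlinarith
          nlinarith
        linarith
      nlinarith
    nlinarith
  · have h7 : η ^ 2 ≤ 1 / 100 * (d * k ^ 2) ^ 2 := by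
      have : -η ≤ 1 / 10 * (d * k ^ 2) := by linarith
      have h8 := pow_le_pow_left₀ (neg_nonneg.mpr h0) this 2
      nlinarith
    have hdkx : d * k ≤ x / 480 := by linarith
    have hkx : k ≤ x / 480 := by nlinarith
    have h3 : (d * k ^ 2) ^ 2 ≤ x ^ 2 * (1 / 100) := by
      have e : d * k ^ 2 = (d * k) * k := by ring
      have h9 : (d * k) * k ≤ (x / 480) * (x / 480) := by gcongr
      have hx1 : x / 480 ≤ 1 ∨ 1 < x / 480 := le_or_gt _ _
      have h10 : d * k ≤ 1 / 10000 := by linarith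
      have h11 : (d * k) * k ≤ (1 / 10000) * (x / 480) := by gcongr
      rw [e]
      have h12 : 0 ≤ (d * k) * k := by positivity
      have h13 := pow_le_pow_left₀ h12 h11 2
      nlinarith [sq_nonneg x]
    have h8 : -(2 * p * a * x * η) ≤ 63 / 100 * (x * (d * k)) := by
      have a1 : -(2 * p * a * x * η) ≤ 2 * p * a * x * (1 / 10 * (d * k ^ 2)) := by
        have h9 : 0 ≤ 2 * p * a * x := by
          have : 0 < a := by linarith
          positivity
        nlinarith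
      have a4 : 2 * p * a * x * (1 / 10 * (d * k ^ 2)) = (1 / 5 * p) * (x * (d * k)) * (a * k) := by
        ring
      have a5 : (1 / 5 * p) * (x * (d * k)) ≤ 63 / 100 * (x * (d * k)) := by
        gcongr
        linarith
      rw [a4, hak, mul_one] at a1
      linarith
    have h10 : 63 / 100 * (x * (d * k)) ≤ 63 / 100 * (x * (x / 480)) := by gcongr
    have h12 : d * (4 * η ^ 2) ≤ 1 / 10 * (d * x ^ 2) := by
      have : 4 * η ^ 2 ≤ 1 / 10 * x ^ 2 := by nlinarith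
      calc d * (4 * η ^ 2) ≤ d * (1 / 10 * x ^ 2) := by gcongr
        _ = _ := by ring
    nlinarith

end Pool.Agent.Helper9.TG
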