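import Pool.Agent.Helper92.TG.SLD1

/-!
# The integral of a twist region, any number of children: the main part
-/

namespace Pool.Agent.Helper9.TG

open Complex Finset MeasureTheory
open Pool.Agent.Helper9.TB Pool.Agent.Helper9.TF

variable {ρ d : ℝ} {a : ℕ} {X : ℂ → ℂ} {y : ℂ}

lemma SCtxD.norm_y_half (h : SCtxD ρ d a X y) : ‖y - 0‖ < ρ / 2 := by
  have h1 := h.norm_y
  have h2 := h.inv_a
  have h3 := h.hρ
  rw [sub_zero]
  linarith

lemma SCtxD.amp (h : SCtxD ρ d a X y) {B : ℂ → ℂ} (hB : DifferentiableOn ℂ B (Metric.ball 0 ρ))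
    (hB1 : ∀ z ∈ Metric.ball (0 : ℂ) ρ, ‖B z‖ ≤ 1) {z : ℂ} (hz : z ∈ Metric.ball (0 : ℂ) ρ) :
    ‖dLy z * B z - dLy y * B y‖ ≤ KA ρ * ‖z - y‖ := by
  have h1 := lip_of_bdd hB hB1 h.norm_y_half hz
  have h2 := dLy_lip h.hρ1 hz h.y_mem
  have h3 := dLy_le (im_le_of_ball h.hρ1 h.y_mem)
  have h4 := hB1 z hz
  have hρ := h.hρ
  have hK0 := K0_pos
  have hK1 := K1_pos
  have e : dLy z * B z - dLy y * B y = (dLy z - dLy y) * B z + dLy y * (B z - B y) := by ring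
  rw [e]
  refine (norm_add_le _ _).trans ?_
  rw [norm_mul, norm_mul]
  calc ‖dLy z - dLy y‖ * ‖B z‖ + ‖dLy y‖ * ‖B z - B y‖
      ≤ (K1 * ‖z - y‖) * 1 + K0 * (8 * 1 / ρ * ‖z - y‖) := by gcongr
    _ = _ := by unfold KA; ring

lemma SCtxD.psi_diff (h : SCtxD ρ d a X y) : DifferentiableOn ℂ (Psi a X) (Metric.ball 0 ρ) := by
  have := h.hX
  unfold Psi
  fun_prop

lemma SCtxD.main_diff (h : SCtxD ρ d a X y) (N : ℕ) {B : ℂ → ℂ}
    (hB : DifferentiableOn ℂ B (Metric.ball 0 ρ)) :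
    DifferentiableOn ℂ (mainf N a X B) (Metric.ball 0 ρ) := by
  have h1 := h.psi_diff
  unfold mainf
  exact (dLy_diff.differentiableOn.mul ((h1.const_mul (N : ℂ)).cexp)).mul hB

lemma SCtxD.main_le (h : SCtxD ρ d a X y) (N : ℕ) {B : ℂ → ℂ}
    (hB1 : ∀ z ∈ Metric.ball (0 : ℂ) ρ, ‖B z‖ ≤ 1) {z : ℂ} (hz : z ∈ Metric.ball (0 : ℂ) ρ)
    {m : ℝ} (hm : (Psi a X z).re ≤ (Psi a X y).re + m) :
    ‖mainf N a X B z‖ ≤ K0 * Real.exp (N * m) * Real.exp (N * (Psi a X y).re) := by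
  unfold mainf
  rw [norm_mul, norm_mul, Complex.norm_exp]
  have h1 := dLy_le (im_le_of_ball h.hρ1 hz)
  have h2 := hB1 z hz
  have h3 : ((N : ℂ) * Psi a X z).re = N * (Psi a X z).re := by
    rw [← Complex.ofReal_natCast, Complex.re_ofReal_mul]
  have hK0 := K0_pos
  rw [h3, mul_assoc K0, ← Real.exp_add]
  calc ‖dLy z‖ * Real.exp (N * (Psi a X z).re) * ‖B z‖
      ≤ K0 * Real.exp (N * m + N * (Psi a X y).re) * 1 := by
        gcongr
        have : (0 : ℝ) ≤ N := by positivity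
        nlinarith
    _ = _ := by ring

/-- the flat line -/
lemma SCtxD.flat_mem (h : SCtxD ρ d a X y) {ξ : ℝ} (hξ : |ξ| ≤ ρ / 2) :
    pt ξ (d / a ^ 2) ∈ Metric.ball (0 : ℂ) ρ := by
  have ha := h.a_pos
  have hk := h.inv_a
  have hd1 := h.hd1
  have hρ := h.hρ
  have hρ1 := h.hρ1
  apply mem_ball_of hρ
  · rw [pt_re]; exact hξ
  · rw [pt_im, abs_neg, abs_of_nonneg (by positivity)]
    have e : d / (a : ℝ) ^ 2 = (d * (1 / a)) * (1 / a) := by ring
    rw [e]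
    have h1 : 0 < 1 / (a : ℝ) := by positivity
    have h2 := h.dk
    have h3 : (d * (1 / (a : ℝ))) * (1 / a) ≤ 1 / 10000 * (1 / a) := by gcongr
    linarith

lemma SCtxD.flat_re (h : SCtxD ρ d a X y) {ξ : ℝ} (hξ : |ξ| ≤ ρ / 2) :
    (Psi a X (pt ξ (d / a ^ 2))).re ≤ (Psi a X y).re + 1 / 10 * (d * (1 / (a : ℝ)) ^ 2) := by
  have ha := h.a_pos
  have h1 := h.re_le (h.flat_mem hξ)
  have e1 : (pt ξ (d / a ^ 2)).re = ξ := pt_re _ _
  have e2 : (pt ξ (d / a ^ 2)).im = -(d * (1 / (a : ℝ)) ^ 2) := by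
    rw [pt_im]
    ring
  rw [e1, e2] at h1
  have h2 := flat_ineqD (p := Real.pi) (a := a) (k := 1 / a) (x := ξ - y.re)
    (η := -(d * (1 / (a : ℝ)) ^ 2) - y.im) (d := d) Real.pi_gt_d2 Real.pi_lt_d2 (by positivity)
    h.dk (by field_simp) h.hd1 (by
      have := h.im_loc
      rw [abs_sub_comm, sub_neg_eq_add]
      exact this)
  linarith

/-- one connector -/
lemma SCtxD.conn (h : SCtxD ρ d a X y) (N : ℕ) {B : ℂ → ℂ}
    (hB1 : ∀ z ∈ Metric.ball (0 : ℂ) ρ, ‖B z‖ ≤ 1) {P : ℂ → ℂ}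
    (hP : ∀ z ∈ Metric.ball (0 : ℂ) ρ, HasDerivAt P (mainf N a X B z) z) {c u v : ℝ}
    (hS : ∀ z : ℂ, z.re = c → u ≤ z.im → z.im ≤ v → z ∈ Metric.ball (0 : ℂ) ρ ∧
      (Psi a X z).re ≤ (Psi a X y).re + -(ρ ^ 2 / 4)) {z w : ℂ} (hz : z.re = c) (hz1 : u ≤ z.im)
    (hz2 : z.im ≤ v) (hw : w.re = c) (hw1 : u ≤ w.im) (hw2 : w.im ≤ v) :
    ‖P z - P w‖ ≤ K0 * Real.exp (N * -(ρ ^ 2 / 4)) * Real.exp (N * (Psi a X y).re) := by
  set S : Set ℂ := Set.Icc c c ×ℂ Set.Icc u v with hSdef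
  have hconv : Convex ℝ S := ((convex_Icc c c).linear_preimage Complex.reLm).inter
    ((convex_Icc u v).linear_preimage Complex.imLm)
  have hmem : ∀ z ∈ S, z.re = c ∧ u ≤ z.im ∧ z.im ≤ v := by
    intro z hz
    rw [hSdef, Complex.mem_reProdIm] at hz
    exact ⟨le_antisymm hz.1.2 hz.1.1, hz.2.1, hz.2.2⟩
  have hzS : z ∈ S := by
    rw [hSdef, Complex.mem_reProdIm]; exact ⟨⟨hz.ge, hz.le⟩, hz1, hz2⟩
  have hwS : w ∈ S := by
    rw [hSdef, Complex.mem_reProdIm]; exact ⟨⟨hw.ge, hw.le⟩, hw1, hw2⟩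
  have h1 := hconv.norm_image_sub_le_of_norm_hasDerivWithin_le
    (fun x hx => (hP x ((hS x (hmem x hx).1 (hmem x hx).2.1 (hmem x hx).2.2).1)).hasDerivWithinAt)
    (fun x hx => h.main_le N hB1 (hS x (hmem x hx).1 (hmem x hx).2.1 (hmem x hx).2.2).1
      (hS x (hmem x hx).1 (hmem x hx).2.1 (hmem x hx).2.2).2) hwS hzS
  have hzb := (hS z hz hz1 hz2).1
  have hwb := (hS w hw hw1 hw2).1
  rw [Metric.mem_ball, dist_zero_right] at hzb hwb
  have hle : ‖z - w‖ ≤ 1 := by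
    have := norm_sub_le z w
    have := h.hρ1
    linarith
  have hK0 := K0_pos
  calc ‖P z - P w‖ ≤ K0 * Real.exp (N * -(ρ ^ 2 / 4)) * Real.exp (N * (Psi a X y).re) * ‖z - w‖ := h1
    _ ≤ K0 * Real.exp (N * -(ρ ^ 2 / 4)) * Real.exp (N * (Psi a X y).re) * 1 := by gcongr
    _ = _ := by ring


lemma SCtxD.small (h : SCtxD ρ d a X y) : 0 ≤ d / (a : ℝ) ^ 2 ∧ d / (a : ℝ) ^ 2 ≤ ρ / 100 := by
  have ha := h.a_pos
  have hk := h.inv_a
  have hd1 := h.hd1
  have hρ := h.hρ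
  have hρ1 := h.hρ1
  refine ⟨by positivity, ?_⟩
  have e : d / (a : ℝ) ^ 2 = (d * (1 / a)) * (1 / a) := by ring
  rw [e]
  have h1 : 0 < 1 / (a : ℝ) := by positivity
  have h2 := h.dk
  have h3 : (d * (1 / (a : ℝ))) * (1 / a) ≤ 1 / 10000 * (1 / a) := by gcongr
  linarith

lemma SCtxD.connR (h : SCtxD ρ d a X y) {z : ℂ} (hz : z.re = ρ / 2) (h1 : -(d / (a : ℝ) ^ 2) ≤ z.im)
    (h2 : z.im ≤ y.im + (ρ / 2 - y.re)) : z ∈ Metric.ball (0 : ℂ) ρ ∧
      (Psi a X z).re ≤ (Psi a X y).re + -(ρ ^ 2 / 4) := by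
  have hρ := h.hρ
  have hρ1 := h.hρ1
  obtain ⟨hs0, hs1⟩ := h.small
  obtain ⟨r1, r2, r3⟩ := h.re_bounds
  have hk := h.inv_a
  have ha := h.a_pos
  have hb : z ∈ Metric.ball (0 : ℂ) ρ := by
    apply mem_ball_of hρ
    · rw [hz, abs_of_pos (by linarith)]
    · rw [abs_le]
      have := (abs_le.mp r3).2
      constructor <;> linarith
  refine ⟨hb, ?_⟩
  have h3 := h.re_le hb
  have h4 := conn_ineqD (p := Real.pi) (a := a) (k := 1 / a) (x := z.re - y.re)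
    (η := z.im - y.im) (d := d) (ρ := ρ) Real.pi_gt_d2 Real.pi_lt_d2 (by positivity) h.dkρ hρ1
    (by field_simp) h.hd1 (by rw [hz]; linarith) (by
      have h5 := (abs_le.mp h.im_loc).2
      have e : d / (a : ℝ) ^ 2 = d * (1 / a) ^ 2 := by ring
      rw [e] at h1
      linarith) (by rw [hz]; linarith)
  linarith

lemma SCtxD.connL (h : SCtxD ρ d a X y) {z : ℂ} (hz : z.re = -(ρ / 2))
    (h1 : y.im - (ρ / 2 + y.re) ≤ z.im) (h2 : z.im ≤ -(d / (a : ℝ) ^ 2)) :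
    z ∈ Metric.ball (0 : ℂ) ρ ∧ (Psi a X z).re ≤ (Psi a X y).re + -(ρ ^ 2 / 4) := by
  have hρ := h.hρ
  have hρ1 := h.hρ1
  obtain ⟨hs0, hs1⟩ := h.small
  obtain ⟨r1, r2, r3⟩ := h.re_bounds
  have hk := h.inv_a
  have ha := h.a_pos
  have hb : z ∈ Metric.ball (0 : ℂ) ρ := by
    apply mem_ball_of hρ
    · rw [hz, abs_neg, abs_of_pos (by linarith)]
    · rw [abs_le]
      have := (abs_le.mp r3).1
      constructor <;> linarith
  refine ⟨hb, ?_⟩
  have h3 := h.re_le hb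
  have h4 := conn_ineqD (p := Real.pi) (a := a) (k := 1 / a) (x := -(z.re - y.re))
    (η := -(z.im - y.im)) (d := d) (ρ := ρ) Real.pi_gt_d2 Real.pi_lt_d2 (by positivity) h.dkρ hρ1
    (by field_simp) h.hd1 (by rw [hz]; linarith) (by
      have h5 := (abs_le.mp h.im_loc).1
      have e : d / (a : ℝ) ^ 2 = d * (1 / a) ^ 2 := by ring
      rw [e] at h2
      linarith) (by rw [hz]; linarith)
  have e1 : (-(z.re - y.re)) ^ 2 = (z.re - y.re) ^ 2 := by ring
  have e2 : (-(z.im - y.im)) ^ 2 = (z.im - y.im) ^ 2 := by ring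
  have e3 : 2 * Real.pi * a * -(z.re - y.re) * -(z.im - y.im) =
      2 * Real.pi * a * (z.re - y.re) * (z.im - y.im) := by ring
  rw [e1, e2, e3] at h4
  linarith

lemma SCtxD.tlt_mem (h : SCtxD ρ d a X y) {s : ℝ} (h1 : -(ρ / 2 + y.re) ≤ s) (h2 : s ≤ ρ / 2 - y.re) :
    tlt y s ∈ Metric.ball (0 : ℂ) ρ := by
  obtain ⟨r1, r2, r3⟩ := h.re_bounds
  have hk := h.inv_a
  have hρ := h.hρ
  apply mem_ball_of hρ
  · rw [tlt_re, abs_le]; constructor <;> linarith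
  · rw [tlt_im, abs_le]
    have := (abs_le.mp r3).1
    have := (abs_le.mp r3).2
    constructor <;> linarith

lemma SCtxD.tl (h : SCtxD ρ d a X y) {N : ℕ} (hN : 1 ≤ N) :
    TL (2 * Real.pi * a * N) (ρ / 2 + y.re) (ρ / 2 - y.re) (QT N a X y) := by
  obtain ⟨r1, r2, r3⟩ := h.re_bounds
  have hk := h.inv_a
  have hρ := h.hρ
  have ha := h.a_pos
  have ha2 := h.ha
  have hpi := Real.pi_pos
  have hpi3 := Real.pi_gt_three
  have hNR : (1 : ℝ) ≤ N := by exact_mod_cast hN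
  have hd1 := h.hd1
  have had := h.a_ge
  refine ⟨by positivity, by linarith, by linarith, ?_, ?_⟩
  · unfold QT
    apply ContinuousOn.mul continuousOn_const
    apply ContinuousOn.sub _ continuousOn_const
    exact h.psi_diff.continuousOn.comp (tlt_cont y).continuousOn fun s hs => h.tlt_mem hs.1 hs.2
  · intro s hs
    have h1 := h.taylor (h.tlt_mem hs.1 hs.2)
    have e1 : tlt y s - y = (1 + I) * s := by unfold tlt; ring
    have e2 : ((1 + I) * (s : ℂ)) ^ 2 = 2 * I * s ^ 2 := by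
      linear_combination (s : ℂ) ^ 2 * Complex.I_sq
    have e3 : ‖((1 + I) * (s : ℂ))‖ ^ 2 = 2 * s ^ 2 := by
      rw [← norm_pow, e2, norm_mul, norm_mul, norm_pow, Complex.norm_I, Complex.norm_real,
        Real.norm_eq_abs, sq_abs, Complex.norm_ofNat]
      ring
    rw [e1, e2, e3] at h1
    have e4 : QT N a X y s + ((2 * Real.pi * a * N * s ^ 2 : ℝ) : ℂ) =
        N * ((Psi a X (tlt y s) - Psi a X y - (Real.pi * I * a - Real.pi * d) * (2 * I * s ^ 2)) -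
          2 * Real.pi * d * I * s ^ 2) := by
      unfold QT
      push_cast
      linear_combination (2 * Real.pi * a * N * (s : ℂ) ^ 2) * Complex.I_sq
    rw [e4, norm_mul, Complex.norm_natCast]
    have n1 : ‖(2 : ℂ) * Real.pi * d * I * s ^ 2‖ = 2 * Real.pi * d * s ^ 2 := by
      rw [norm_mul, norm_mul, norm_mul, norm_mul, norm_pow, Complex.norm_I, Complex.norm_real,
        Complex.norm_real, Complex.norm_real, Real.norm_eq_abs, Real.norm_eq_abs,
        Real.norm_eq_abs, sq_abs, Complex.norm_ofNat, abs_of_pos hpi, abs_of_pos (by linarith)]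
      ring
    have n2 := norm_sub_le (Psi a X (tlt y s) - Psi a X y -
      (Real.pi * I * a - Real.pi * d) * (2 * I * s ^ 2)) ((2 : ℂ) * Real.pi * d * I * s ^ 2)
    rw [n1] at n2
    have n3 : d / 2 * (2 * s ^ 2) + 2 * Real.pi * d * s ^ 2 ≤ 2 * Real.pi * a * s ^ 2 / 4 := by
      have : d + 2 * Real.pi * d ≤ 2 * Real.pi * a / 4 := by nlinarith
      nlinarith [sq_nonneg s]
    calc (N : ℝ) * _ ≤ N * (2 * Real.pi * a * s ^ 2 / 4) := by
          gcongr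
          linarith
      _ = _ := by ring

lemma SCtxD.flat_prim (h : SCtxD ρ d a X y) {f P : ℂ → ℂ}
    (hf : DifferentiableOn ℂ f (Metric.ball 0 ρ))
    (hP : ∀ z ∈ Metric.ball (0 : ℂ) ρ, HasDerivAt P (f z) z) :
    ∫ ξ in (-(ρ / 2))..(ρ / 2), f (pt ξ (d / a ^ 2)) =
      P (pt (ρ / 2) (d / a ^ 2)) - P (pt (-(ρ / 2)) (d / a ^ 2)) := by
  have hρ := h.hρ
  have hle : -(ρ / 2) ≤ ρ / 2 := by linarith
  have hmem : ∀ ξ ∈ Set.uIcc (-(ρ / 2)) (ρ / 2), pt ξ (d / a ^ 2) ∈ Metric.ball (0 : ℂ) ρ := by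
    intro ξ hξ
    rw [Set.uIcc_of_le hle] at hξ
    exact h.flat_mem (abs_le.mpr hξ)
  apply intervalIntegral.integral_eq_sub_of_hasDerivAt (f := fun ξ : ℝ => P (pt ξ (d / a ^ 2)))
  · intro ξ hξ
    have hpt : HasDerivAt (fun ξ : ℝ => pt ξ (d / a ^ 2)) 1 ξ := by
      unfold pt
      have h1 : HasDerivAt (fun ξ : ℝ => (ξ : ℂ)) 1 ξ := Complex.ofRealCLM.hasDerivAt
      simpa using h1.add_const (((-(d / a ^ 2) : ℝ) : ℂ) * Complex.I)
    have h2 := HasDerivAt.scomp ξ (hP _ (hmem ξ hξ)) hpt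
    rw [one_smul] at h2
    exact h2
  · apply ContinuousOn.intervalIntegrable
    exact hf.continuousOn.comp (pt_cont _).continuousOn hmem

lemma SCtxD.tlt_prim (h : SCtxD ρ d a X y) {f P : ℂ → ℂ}
    (hf : DifferentiableOn ℂ f (Metric.ball 0 ρ))
    (hP : ∀ z ∈ Metric.ball (0 : ℂ) ρ, HasDerivAt P (f z) z) :
    (1 + I) * ∫ s in (-(ρ / 2 + y.re))..(ρ / 2 - y.re), f (tlt y s) =
      P (tlt y (ρ / 2 - y.re)) - P (tlt y (-(ρ / 2 + y.re))) := by
  have hρ := h.hρ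
  have hle : -(ρ / 2 + y.re) ≤ ρ / 2 - y.re := by linarith
  have hmem : ∀ s ∈ Set.uIcc (-(ρ / 2 + y.re)) (ρ / 2 - y.re),
      tlt y s ∈ Metric.ball (0 : ℂ) ρ := by
    intro s hs
    rw [Set.uIcc_of_le hle] at hs
    exact h.tlt_mem hs.1 hs.2
  rw [← intervalIntegral.integral_const_mul]
  apply intervalIntegral.integral_eq_sub_of_hasDerivAt (f := fun s : ℝ => P (tlt y s))
  · intro s hs
    have hpt : HasDerivAt (fun s : ℝ => tlt y s) (1 + I) s := by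
      unfold tlt
      have h1 : HasDerivAt (fun ξ : ℝ => (ξ : ℂ)) 1 s := Complex.ofRealCLM.hasDerivAt
      simpa using (h1.const_mul (1 + I)).const_add y
    have h2 := HasDerivAt.scomp s (hP _ (hmem s hs)) hpt
    exact h2
  · apply ContinuousOn.intervalIntegrable
    exact continuousOn_const.mul (hf.continuousOn.comp (tlt_cont y).continuousOn hmem)

/-- the integral of the main part -/
lemma SCtxD.main_int (h : SCtxD ρ d a X y) {N : ℕ} (hN : 1 ≤ N) {B : ℂ → ℂ}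
    (hB : DifferentiableOn ℂ B (Metric.ball 0 ρ))
    (hB1 : ∀ z ∈ Metric.ball (0 : ℂ) ρ, ‖B z‖ ≤ 1) :
    ‖(∫ ξ in (-(ρ / 2))..(ρ / 2), mainf N a X B (pt ξ (d / a ^ 2))) -
      (1 + I) * Complex.exp (N * Psi a X y) * (dLy y * B y) * JT N a ρ X y‖ ≤
      (2 * K0 * Real.exp (N * -(ρ ^ 2 / 4)) + 16 * KA ρ / (2 * Real.pi * a * N)) *
        Real.exp (N * (Psi a X y).re) := by
  obtain ⟨r1, r2, r3⟩ := h.re_bounds
  have hk := h.inv_a
  have hρ := h.hρ
  have ha := h.a_pos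
  have hpi := Real.pi_pos
  obtain ⟨hs0, hs1⟩ := h.small
  have hNR : (1 : ℝ) ≤ N := by exact_mod_cast hN
  have hT := h.tl hN
  have hf := h.main_diff N hB
  obtain ⟨P, hP⟩ := hf.isExactOn_ball
  have hKA : 0 < KA ρ := by
    unfold KA
    have := K0_pos
    have := K1_pos
    positivity
  rw [h.flat_prim hf hP]
  -- connectors
  have c1 : ‖P (pt (ρ / 2) (d / a ^ 2)) - P (tlt y (ρ / 2 - y.re))‖ ≤
      K0 * Real.exp (N * -(ρ ^ 2 / 4)) * Real.exp (N * (Psi a X y).re) := by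
    have r4 := abs_le.mp r3
    apply h.conn N hB1 hP (c := ρ / 2) (u := -(d / (a : ℝ) ^ 2)) (v := y.im + (ρ / 2 - y.re))
      (fun z hz h1 h2 => h.connR hz h1 h2)
    · rw [pt_re]
    · rw [pt_im]
    · rw [pt_im]; linarith
    · rw [tlt_re]; ring
    · rw [tlt_im]; linarith
    · rw [tlt_im]
  have c2 : ‖P (pt (-(ρ / 2)) (d / a ^ 2)) - P (tlt y (-(ρ / 2 + y.re)))‖ ≤
      K0 * Real.exp (N * -(ρ ^ 2 / 4)) * Real.exp (N * (Psi a X y).re) := by
    have r4 := abs_le.mp r3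
    apply h.conn N hB1 hP (c := -(ρ / 2)) (u := y.im - (ρ / 2 + y.re)) (v := -(d / (a : ℝ) ^ 2))
      (fun z hz h1 h2 => h.connL hz h1 h2)
    · rw [pt_re]
    · rw [pt_im]; linarith
    · rw [pt_im]
    · rw [tlt_re]; ring
    · rw [tlt_im]; linarith
    · rw [tlt_im]; linarith
  have ht := h.tlt_prim hf hP
  -- the tilted integral
  have hle : -(ρ / 2 + y.re) ≤ ρ / 2 - y.re := by linarith
  have e1 : ∫ s in (-(ρ / 2 + y.re))..(ρ / 2 - y.re), mainf N a X B (tlt y s) =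
      Complex.exp (N * Psi a X y) * ((dLy y * B y) * JT N a ρ X y +
        ∫ s in (-(ρ / 2 + y.re))..(ρ / 2 - y.re), Complex.exp (QT N a X y s) *
          (dLy (tlt y s) * B (tlt y s) - dLy y * B y)) := by
    unfold JT
    have i1 : IntervalIntegrable (fun s => (dLy y * B y) * Complex.exp (QT N a X y s)) volume
        (-(ρ / 2 + y.re)) (ρ / 2 - y.re) := by
      have := hT.intervalIntegrable (g := fun _ => dLy y * B y) continuousOn_const
      simpa only [mul_comm] using this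
    have hg : ContinuousOn (fun s : ℝ => dLy (tlt y s) * B (tlt y s) - dLy y * B y)
        (Set.Icc (-(ρ / 2 + y.re)) (ρ / 2 - y.re)) := by
      apply ContinuousOn.sub _ continuousOn_const
      exact ((dLy_diff.differentiableOn.mul hB).continuousOn).comp (tlt_cont y).continuousOn
        fun s hs => h.tlt_mem hs.1 hs.2
    have i2 := hT.intervalIntegrable hg
    rw [← intervalIntegral.integral_const_mul, ← intervalIntegral.integral_add i1 i2,
      ← intervalIntegral.integral_const_mul]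
    apply intervalIntegral.integral_congr
    intro s _
    simp only []
    unfold mainf
    have e2 : (N : ℂ) * Psi a X (tlt y s) = N * Psi a X y + QT N a X y s := by unfold QT; ring
    rw [e2, Complex.exp_add]
    ring
  have n1 : ‖∫ s in (-(ρ / 2 + y.re))..(ρ / 2 - y.re), Complex.exp (QT N a X y s) *
      (dLy (tlt y s) * B (tlt y s) - dLy y * B y)‖ ≤ 4 * (2 * KA ρ) / (2 * Real.pi * a * N) := by
    apply hT.lin (by positivity)
    intro s hs
    refine (h.amp hB hB1 (h.tlt_mem hs.1 hs.2)).trans ?_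
    have e3 : tlt y s - y = (1 + I) * s := by unfold tlt; ring
    have n2 : ‖(1 : ℂ) + I‖ ≤ 2 := by
      refine (norm_add_le _ _).trans ?_
      rw [norm_one, Complex.norm_I]; norm_num
    rw [e3, norm_mul, Complex.norm_real, Real.norm_eq_abs]
    calc KA ρ * (‖(1 : ℂ) + I‖ * |s|) ≤ KA ρ * (2 * |s|) := by gcongr
      _ = _ := by ring
  set Z := ∫ s in (-(ρ / 2 + y.re))..(ρ / 2 - y.re), Complex.exp (QT N a X y s) *
      (dLy (tlt y s) * B (tlt y s) - dLy y * B y) with hZ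
  rw [e1] at ht
  have e4 : P (pt (ρ / 2) (d / a ^ 2)) - P (pt (-(ρ / 2)) (d / a ^ 2)) -
      (1 + I) * Complex.exp (N * Psi a X y) * (dLy y * B y) * JT N a ρ X y =
      (P (pt (ρ / 2) (d / a ^ 2)) - P (tlt y (ρ / 2 - y.re))) -
      (P (pt (-(ρ / 2)) (d / a ^ 2)) - P (tlt y (-(ρ / 2 + y.re)))) +
      (1 + I) * Complex.exp (N * Psi a X y) * Z := by
    linear_combination (-1 : ℂ) * ht
  rw [e4]
  have n3 : ‖(1 + I) * Complex.exp (N * Psi a X y) * Z‖ ≤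
      16 * KA ρ / (2 * Real.pi * a * N) * Real.exp (N * (Psi a X y).re) := by
    rw [norm_mul, norm_mul, Complex.norm_exp]
    have h3 : ((N : ℂ) * Psi a X y).re = N * (Psi a X y).re := by
      rw [← Complex.ofReal_natCast, Complex.re_ofReal_mul]
    have n2 : ‖(1 : ℂ) + I‖ ≤ 2 := by
      refine (norm_add_le _ _).trans ?_
      rw [norm_one, Complex.norm_I]; norm_num
    rw [h3]
    calc ‖(1 : ℂ) + I‖ * Real.exp (N * (Psi a X y).re) * ‖Z‖
        ≤ 2 * Real.exp (N * (Psi a X y).re) * (4 * (2 * KA ρ) / (2 * Real.pi * a * N)) := by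
          gcongr
      _ = _ := by ring
  refine (norm_add_le _ _).trans ((add_le_add (norm_sub_le _ _) n3).trans ?_)
  linarith


end Pool.Agent.Helper9.TG
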